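import Mathlib
import Pool.Agent.Helper26.LT.Ext
import Pool.Agent.Helper26.FD.Cpx

/-!
# FU: embeddings of `ℂ` in the algebraic closure of `ℚ_p` with prescribed values
-/

set_option autoImplicit false

namespace Pool.Agent.Helper26.FU

open Cardinal Set Pool.Agent.Helper26.FD

noncomputable section

variable {p : ℕ} [hp : Fact p.Prime]

/-- an embedding of a countable field extends to `ℂ` -/
theorem exists_lift_complex {K : Type} [Field K] [Algebra K ℂ] [Countable K]
    (ψ : K →+* PadicAlgCl p) :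
    ∃ τ : ℂ →+* PadicAlgCl p, ∀ k, τ (algebraMap K ℂ k) = ψ k := by
  let : Algebra K (PadicAlgCl p) := ψ.toAlgebra
  obtain ⟨ι, x, hx⟩ := exists_isTranscendenceBasis' K ℂ
  obtain ⟨κ, y, hy⟩ := exists_isTranscendenceBasis' K (PadicAlgCl p)
  have hι : #ι ≤ 𝔠 := by
    rw [← mk_complex]
    exact mk_le_of_injective hx.1.injective
  have hκ : 𝔠 ≤ #κ := by
    have hne : Nonempty κ := by
      by_contra hcon
      rw [not_nonempty_iff] at hcon
      have halg : Algebra.IsAlgebraic K (PadicAlgCl p) := hy.isEmpty_iff_isAlgebraic.1 hcon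
      have h1 := Algebra.IsAlgebraic.cardinalMk_le_max K (PadicAlgCl p)
      rw [mk_padicAlgCl] at h1
      exact absurd (aleph0_lt_continuum.trans_le h1) (not_lt.2 (max_le mk_le_aleph0 le_rfl))
    have h3 := hy.lift_cardinalMk_eq_max_lift
    rw [lift_id, lift_id, lift_id, mk_padicAlgCl] at h3
    by_contra hcon
    push Not at hcon
    have h4 : max (max #K #κ) ℵ₀ < 𝔠 := by
      refine max_lt (max_lt ?_ hcon) aleph0_lt_continuum
      exact lt_of_le_of_lt mk_le_aleph0 aleph0_lt_continuum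
    rw [← h3] at h4
    exact lt_irrefl _ h4
  obtain ⟨e⟩ : Nonempty (ι ↪ κ) := (le_def ι κ).1 (hι.trans hκ)
  have hu : AlgebraicIndependent K (fun i => y (e i)) := hy.1.comp e e.injective
  let f : IntermediateField.adjoin K (range x) →ₐ[K] PadicAlgCl p :=
    (IntermediateField.val _).comp (hu.aevalEquivField.toAlgHom.comp
      hx.1.aevalEquivField.symm.toAlgHom)
  let : Algebra (IntermediateField.adjoin K (range x)) (PadicAlgCl p) := f.toRingHom.toAlgebra
  have halg : Algebra.IsAlgebraic (IntermediateField.adjoin K (range x)) ℂ := hx.isAlgebraic_field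
  let τ : ℂ →ₐ[IntermediateField.adjoin K (range x)] PadicAlgCl p := IsAlgClosed.lift
  refine ⟨τ.toRingHom, fun k => ?_⟩
  have h1 : algebraMap K ℂ k = algebraMap (IntermediateField.adjoin K (range x)) ℂ
      (algebraMap K _ k) := rfl
  have h2 := τ.commutes (algebraMap K (IntermediateField.adjoin K (range x)) k)
  rw [h1]
  exact h2.trans (f.commutes k)

/-- the values at algebraically independent elements can be chosen in any subfield of cardinality
`> ℵ₀` which contains the values of the base field -/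
theorem exists_embedding (L₀ : Subfield ℂ) (hL₀ : (L₀ : Set ℂ).Countable)
    (τ₀ : ℂ →+* PadicAlgCl p) (K₀ : Subfield (PadicAlgCl p)) (hK₀ : ℵ₀ < #K₀)
    (h : ∀ z ∈ L₀, τ₀ z ∈ K₀) {r : ℕ} {t : Fin r → ℂ} (ht : AlgebraicIndependent L₀ t) :
    ∃ τ : ℂ →+* PadicAlgCl p, (∀ z ∈ L₀, τ z = τ₀ z) ∧ ∀ i, τ (t i) ∈ K₀ := by
  have : Countable L₀ := hL₀
  let φ : L₀ →+* K₀ := (τ₀.comp L₀.subtype).codRestrict K₀ fun z => h _ z.2
  obtain ⟨ψ, hψ⟩ := Pool.Agent.Helper26.LT.exists_ext hK₀ φ ht
  have hcount : Countable (IntermediateField.adjoin L₀ (range t)) := by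
    rw [← mk_le_aleph0_iff]
    refine (IntermediateField.cardinalMk_adjoin_le L₀ (range t)).trans ?_
    refine max_le (max_le mk_le_aleph0 mk_le_aleph0) le_rfl
  obtain ⟨τ, hτ⟩ := exists_lift_complex (K := IntermediateField.adjoin L₀ (range t))
    (K₀.subtype.comp ψ)
  refine ⟨τ, fun z hz => ?_, fun i => ?_⟩
  · have h1 := hτ (algebraMap L₀ _ ⟨z, hz⟩)
    rw [RingHom.comp_apply, hψ] at h1
    exact h1
  · have hti : t i ∈ IntermediateField.adjoin L₀ (range t) :=
      IntermediateField.subset_adjoin _ _ ⟨i, rfl⟩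
    have h1 := hτ ⟨t i, hti⟩
    have h2 : algebraMap (IntermediateField.adjoin L₀ (range t)) ℂ ⟨t i, hti⟩ = t i := rfl
    rw [h2] at h1
    rw [h1, RingHom.comp_apply]
    exact (ψ ⟨t i, hti⟩).2

end

end Pool.Agent.Helper26.FU
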