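import Mathlib
import Pool.Agent.Helper26.FU.Ext

/-!
# FU: the algebra generated by a finite extension
-/

set_option autoImplicit false

namespace Pool.Agent.Helper26.FU

open Cardinal Set Pool.Agent.Helper26.FD

noncomputable section

variable {p : ℕ} [hp : Fact p.Prime]

theorem exists_alg (K₀ : IntermediateField ℚ_[p] (PadicAlgCl p)) [FiniteDimensional ℚ_[p] K₀]
    (τ : ℂ →+* PadicAlgCl p) (E : Subfield ℂ) (hE : ∀ z ∈ E, τ z ∈ K₀)
    (M : IntermediateField E ℂ) [FiniteDimensional E M] :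
    ∃ L : Subalgebra ℚ_[p] (PadicAlgCl p), FiniteDimensional ℚ_[p] L ∧
      Module.finrank ℚ_[p] L ≤ Module.finrank ℚ_[p] K₀ * Module.finrank E M ∧
      (∀ z ∈ M, τ z ∈ L) ∧ ∀ z ∈ K₀, z ∈ L := by
  classical
  let v := Module.finBasis E M
  let N : Submodule K₀ (PadicAlgCl p) := Submodule.span K₀ (range fun i => τ (v i : ℂ))
  have hM : ∀ z ∈ M, τ z ∈ N := by
    intro z hz
    have h1 := v.sum_repr ⟨z, hz⟩
    have h2 := congrArg (fun w : M => τ (w : ℂ)) h1
    simp only at h2
    rw [← h2]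
    have h3 : (((∑ i, v.repr ⟨z, hz⟩ i • v i : M) : M) : ℂ) =
        ∑ i, ((v.repr ⟨z, hz⟩ i : E) : ℂ) * (v i : ℂ) := by
      rw [← IntermediateField.coe_val, map_sum]
      exact Finset.sum_congr rfl fun i _ => rfl
    rw [h3, map_sum]
    refine Submodule.sum_mem _ fun i _ => ?_
    rw [map_mul]
    have h4 : τ ((v.repr ⟨z, hz⟩ i : E) : ℂ) * τ (v i : ℂ) =
        (⟨τ ((v.repr ⟨z, hz⟩ i : E) : ℂ), hE _ (v.repr ⟨z, hz⟩ i).2⟩ : K₀) • τ (v i : ℂ) := rfl
    rw [h4]
    exact Submodule.smul_mem _ _ (Submodule.subset_span ⟨i, rfl⟩)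
  have hone : (1 : PadicAlgCl p) ∈ N := by
    have h1 := hM 1 (one_mem M)
    rwa [map_one] at h1
  have hmul : ∀ x y, x ∈ N → y ∈ N → x * y ∈ N := by
    intro x y hx hy
    induction hx using Submodule.span_induction with
    | mem x hx =>
      obtain ⟨i, rfl⟩ := hx
      induction hy using Submodule.span_induction with
      | mem y hy =>
        obtain ⟨j, rfl⟩ := hy
        dsimp only
        rw [← map_mul]
        exact hM _ (mul_mem (v i).2 (v j).2)
      | zero => rw [mul_zero]; exact zero_mem _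
      | add a b _ _ ha hb => rw [mul_add]; exact add_mem ha hb
      | smul c a _ ha => rw [mul_smul_comm]; exact Submodule.smul_mem _ _ ha
    | zero => rw [zero_mul]; exact zero_mem _
    | add a b _ _ ha hb => rw [add_mul]; exact add_mem ha hb
    | smul c a _ ha => rw [smul_mul_assoc]; exact Submodule.smul_mem _ _ ha
  have hfin : FiniteDimensional K₀ N := FiniteDimensional.span_of_finite K₀ (finite_range _)
  have hfr : Module.finrank K₀ N ≤ Module.finrank E M := by
    have h1 := finrank_range_le_card (R := K₀) (fun i => τ (v i : ℂ))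
    rw [Fintype.card_fin] at h1
    exact h1
  let L : Subalgebra K₀ (PadicAlgCl p) := N.toSubalgebra hone hmul
  have hfinL : FiniteDimensional K₀ L := hfin
  have hfrL : Module.finrank K₀ L ≤ Module.finrank E M := hfr
  have h1 : FiniteDimensional ℚ_[p] L := Module.Finite.trans K₀ L
  refine ⟨L.restrictScalars ℚ_[p], h1, ?_, hM, fun z hz => ?_⟩
  · have h2 : Module.finrank ℚ_[p] (L.restrictScalars ℚ_[p]) = Module.finrank ℚ_[p] L := rfl
    rw [h2, ← Module.finrank_mul_finrank ℚ_[p] K₀ L]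
    exact Nat.mul_le_mul_left _ hfrL
  · have h2 : z = (⟨z, hz⟩ : K₀) • (1 : PadicAlgCl p) := by
      rw [Algebra.smul_def, mul_one]
      rfl
    rw [h2]
    exact Submodule.smul_mem N _ hone

theorem aleph0_lt_intermediate (K₀ : IntermediateField ℚ_[p] (PadicAlgCl p)) :
    ℵ₀ < #K₀.toSubfield := by
  refine (Pool.Agent.Helper26.LT.aleph0_lt_padic p).trans_le ?_
  exact mk_le_of_injective (f := fun z : ℚ_[p] => (algebraMap ℚ_[p] K₀ z : K₀))
    (algebraMap ℚ_[p] K₀).injective

end

end Pool.Agent.Helper26.FU
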