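import Mathlib
import Pool.Agent.Helper86.DML.Zeros
import Pool.Agent.Helper87.LD.Zer

/-!
# FU: uniform bounds for the number of zeros over the algebraic closure of `ℚ_p`
-/

set_option autoImplicit false

namespace Pool.Agent.Helper26.FU

open Finset fwdDiff Polynomial Pool.Agent.Helper86.DML

noncomputable section

variable {p : ℕ} [hp : Fact p.Prime]

theorem norm_add_le' (x y : PadicAlgCl p) : ‖x + y‖ ≤ max ‖x‖ ‖y‖ :=
  PadicAlgCl.isNonarchimedean p x y

theorem norm_intCast_le (z : ℤ) : ‖(z : PadicAlgCl p)‖ ≤ 1 := by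
  have h1 : (z : PadicAlgCl p) = ((z : ℚ_[p]) : PadicAlgCl p) := by simp
  rw [h1, PadicAlgCl.norm_extends]
  exact Padic.norm_int_le_one z

theorem norm_natCast_le (n : ℕ) : ‖(n : PadicAlgCl p)‖ ≤ 1 := by
  have h := norm_intCast_le (p := p) (n : ℤ)
  simpa using h

theorem norm_p : ‖(p : PadicAlgCl p)‖ = (p : ℝ)⁻¹ := by
  have h1 : (p : PadicAlgCl p) = ((p : ℚ_[p]) : PadicAlgCl p) := by simp
  rw [h1, PadicAlgCl.norm_extends, Padic.norm_p]

theorem norm_p_pos : 0 < ‖(p : PadicAlgCl p)‖ := by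
  rw [norm_p]
  have := hp.out.pos
  positivity

theorem norm_p_lt_one : ‖(p : PadicAlgCl p)‖ < 1 := by
  rw [norm_p]
  exact inv_lt_one_of_one_lt₀ (by exact_mod_cast hp.out.one_lt)

theorem norm_sum_le_of {ι : Type*} (s : Finset ι) (f : ι → PadicAlgCl p) {C : ℝ} (hC : 0 ≤ C)
    (h : ∀ i ∈ s, ‖f i‖ ≤ C) : ‖∑ i ∈ s, f i‖ ≤ C := by
  classical
  induction s using Finset.induction_on with
  | empty => simpa using hC
  | insert a s ha ih =>
    rw [Finset.sum_insert ha]
    exact (norm_add_le' _ _).trans (max_le (h a (Finset.mem_insert_self a s))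
      (ih fun i hi => h i (Finset.mem_insert_of_mem hi)))

theorem norm_sum_lt_of {ι : Type*} (s : Finset ι) (f : ι → PadicAlgCl p) {C : ℝ} (hC : 0 < C)
    (h : ∀ i ∈ s, ‖f i‖ < C) : ‖∑ i ∈ s, f i‖ < C := by
  classical
  induction s using Finset.induction_on with
  | empty => simpa using hC
  | insert a s ha ih =>
    rw [Finset.sum_insert ha]
    exact (norm_add_le' _ _).trans_lt (max_lt (h a (Finset.mem_insert_self a s))
      (ih fun i hi => h i (Finset.mem_insert_of_mem hi)))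

/-- the image of a `p`-adic integer -/
def ι (z : ℤ_[p]) : PadicAlgCl p := ((z : ℚ_[p]) : PadicAlgCl p)

theorem norm_ι (z : ℤ_[p]) : ‖ι z‖ = ‖z‖ := by
  rw [ι, PadicAlgCl.norm_extends]
  rfl

theorem norm_ι_le_of_dvd {z : ℤ_[p]} {M : ℕ} (h : (p : ℤ_[p]) ^ M ∣ z) :
    ‖ι z‖ ≤ ‖(p : PadicAlgCl p)‖ ^ M := by
  obtain ⟨w, rfl⟩ := h
  rw [norm_ι, norm_mul, norm_pow, norm_p, PadicInt.norm_p]
  exact mul_le_of_le_one_right (by positivity) (PadicInt.norm_le_one w)

/-- **Zeros of polynomials.** If the coefficients of index `> s` have norm less than the maximum of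
the norms of the coefficients, the polynomial has at most `s` roots which are natural numbers. -/
theorem roots_le (P : (PadicAlgCl p)[X]) (i₀ s : ℕ) (hmax : ∀ i, ‖P.coeff i‖ ≤ ‖P.coeff i₀‖)
    (hs : ∀ i, s < i → ‖P.coeff i‖ < ‖P.coeff i₀‖) (T : Finset ℕ)
    (hT : ∀ n ∈ T, P.eval (n : PadicAlgCl p) = 0) : T.card ≤ s := by
  classical
  have hc0 : P.coeff i₀ ≠ 0 := by
    intro h0
    have h1 := hs (s + 1) (Nat.lt_succ_self s)
    rw [h0, norm_zero] at h1
    exact absurd h1 (not_lt.2 (norm_nonneg _))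
  set c := (P.coeff i₀)⁻¹ with hc
  have hcn : ‖c‖ = ‖P.coeff i₀‖⁻¹ := by rw [hc, norm_inv]
  have hpos : 0 < ‖P.coeff i₀‖ := norm_pos_iff.2 hc0
  let A : ValuationSubring (PadicAlgCl p) := (Valued.v (R := PadicAlgCl p)).valuationSubring
  have hA : ∀ x : PadicAlgCl p, x ∈ A ↔ ‖x‖ ≤ 1 := by
    intro x
    rw [Valuation.mem_valuationSubring_iff, PadicAlgCl.valuation_def]
    exact_mod_cast Iff.rfl
  have hmaxid : ∀ x : A, x ∈ IsLocalRing.maximalIdeal A ↔ ‖(x : PadicAlgCl p)‖ < 1 := by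
    intro x
    rw [IsLocalRing.mem_maximalIdeal, mem_nonunits_iff]
    constructor
    · intro h
      by_contra hcon
      push Not at hcon
      have hx1 : ‖(x : PadicAlgCl p)‖ = 1 := le_antisymm ((hA _).1 x.2) hcon
      have hx0 : (x : PadicAlgCl p) ≠ 0 := by
        intro h0
        rw [h0, norm_zero] at hx1
        exact zero_ne_one hx1
      apply h
      have hinv : ((x : PadicAlgCl p))⁻¹ ∈ A := by
        rw [hA, norm_inv, hx1, inv_one]
      refine IsUnit.of_mul_eq_one ⟨_, hinv⟩ ?_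
      exact Subtype.ext (mul_inv_cancel₀ hx0)
    · intro h hu
      obtain ⟨y, hy⟩ := hu.exists_right_inv
      have h1 : ‖(x : PadicAlgCl p)‖ * ‖(y : PadicAlgCl p)‖ = 1 := by
        rw [← norm_mul]
        have h2 := congrArg (Subtype.val) hy
        have h3 : (x : PadicAlgCl p) * (y : PadicAlgCl p) = 1 := h2
        rw [h3, norm_one]
      have h2 := (hA _).1 y.2
      have h3 : ‖(x : PadicAlgCl p)‖ * ‖(y : PadicAlgCl p)‖ < 1 := by
        have := norm_nonneg (y : PadicAlgCl p)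
        nlinarith [norm_nonneg (x : PadicAlgCl p)]
      exact absurd h1 h3.ne
  -- lift
  obtain ⟨Q, hQ⟩ : ∃ Q : A[X], Q.map (algebraMap A (PadicAlgCl p)) = C c * P := by
    have h1 : C c * P ∈ Polynomial.lifts (algebraMap A (PadicAlgCl p)) := by
      rw [Polynomial.lifts_iff_coeff_lifts]
      intro i
      refine ⟨⟨(C c * P).coeff i, (hA _).2 ?_⟩, rfl⟩
      rw [coeff_C_mul, norm_mul, hcn, inv_mul_le_iff₀ hpos, mul_one]
      exact hmax i
    exact (Polynomial.mem_lifts _).1 h1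
  have hQc : ∀ i, ((Q.coeff i : A) : PadicAlgCl p) = c * P.coeff i := by
    intro i
    have h1 := congrArg (fun q => Polynomial.coeff q i) hQ
    simp only [Polynomial.coeff_map, coeff_C_mul] at h1
    exact h1
  have hQ0 : Q ≠ 0 := by
    intro h0
    have h1 := hQc i₀
    rw [h0, Polynomial.coeff_zero, hc, inv_mul_cancel₀ hc0] at h1
    exact zero_ne_one h1
  let π := IsLocalRing.residue A
  have hπ0 : Q.map π ≠ 0 := by
    intro h0
    have h1 := congrArg (fun q => Polynomial.coeff q i₀) h0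
    simp only [Polynomial.coeff_map, Polynomial.coeff_zero] at h1
    rw [IsLocalRing.residue_eq_zero_iff, hmaxid, hQc, hc, inv_mul_cancel₀ hc0, norm_one] at h1
    exact lt_irrefl _ h1
  have hdeg : (Q.map π).natDegree ≤ s := by
    rw [Polynomial.natDegree_le_iff_coeff_eq_zero]
    intro i hi
    rw [Polynomial.coeff_map]
    show π (Q.coeff i) = 0
    rw [IsLocalRing.residue_eq_zero_iff, hmaxid, hQc, norm_mul, hcn, inv_mul_lt_iff₀ hpos, mul_one]
    exact hs i hi
  -- the roots
  have hinj : Function.Injective (fun n : ℕ => (n : A)) := by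
    intro a b hab
    have h1 := congrArg (Subtype.val) hab
    have h2 : ((a : PadicAlgCl p)) = b := by simpa using h1
    exact_mod_cast h2
  have hdvd : ((T.val.map fun n : ℕ => (n : A)).map fun a => X - C a).prod ∣ Q := by
    rw [Multiset.prod_X_sub_C_dvd_iff_le_roots hQ0, Multiset.le_iff_subset]
    · intro a ha
      rw [Multiset.mem_map] at ha
      obtain ⟨n, hn, rfl⟩ := ha
      rw [Polynomial.mem_roots hQ0, Polynomial.IsRoot.def]
      apply Subtype.ext
      have h1 : ((Q.eval (n : A) : A) : PadicAlgCl p) =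
          (Q.map (algebraMap A (PadicAlgCl p))).eval (n : PadicAlgCl p) := by
        rw [Polynomial.eval_map]
        have h2 := Polynomial.hom_eval₂ Q (RingHom.id A) (algebraMap A (PadicAlgCl p)) (n : A)
        rw [RingHom.comp_id, map_natCast] at h2
        exact h2
      rw [h1, hQ, Polynomial.eval_mul, hT n (Finset.mem_def.2 hn), mul_zero]
      rfl
    · exact T.nodup.map hinj
  have h1 := Polynomial.map_dvd π hdvd
  have h2 := Polynomial.natDegree_le_of_dvd h1 hπ0
  have h3 : ((((T.val.map fun n : ℕ => (n : A)).map fun a => X - C a).prod).map π).natDegree =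
      T.card := by
    rw [(Polynomial.monic_multiset_prod_of_monic _ _ fun a _ => monic_X_sub_C a).natDegree_map]
    rw [Polynomial.natDegree_multiset_prod_X_sub_C_eq_card, Multiset.card_map]
    rfl
  rw [h3] at h2
  exact h2.trans hdeg

/-- **Zeros of Newton series.** -/
theorem newton_zeros (hp3 : 3 ≤ p) (w : ℕ → PadicAlgCl p) (hw : ∀ j, ‖w j‖ ≤ 1) {i₀ M : ℕ}
    (hi₀ : i₀ ≤ M) (hw1 : ‖w i₀‖ = 1) (f : ℕ → PadicAlgCl p)
    (hf : ∀ n, f n = ∑ j ∈ range (n + 1), (n.choose j : PadicAlgCl p) *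
      ((p : PadicAlgCl p) ^ j * w j))
    (hfd : (fwdDiff 1)^[i₀] f 0 = (p : PadicAlgCl p) ^ i₀ * w i₀) (T : Finset ℕ)
    (hT : ∀ n ∈ T, f n = 0) : T.card ≤ 2 * M + 1 := by
  classical
  choose q hq hqM using fun k => exists_q hp3 k
  obtain ⟨K, hKT⟩ : ∃ K, ∀ n ∈ T, n ≤ K := ⟨T.sup id, fun n hn => Finset.le_sup (f := id) hn⟩
  set K' := max K M with hK'
  let P : (PadicAlgCl p)[X] := ∑ j ∈ range (K' + 1), C (w j * ι (q j)) * descPochhammer _ j
  have hιq : ∀ k, ι (q k) * (k.factorial : PadicAlgCl p) = (p : PadicAlgCl p) ^ k := by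
    intro k
    have h1 := congrArg (fun z : ℤ_[p] => ((z : ℚ_[p]) : PadicAlgCl p)) (hq k)
    simpa [ι] using h1
  have hPeval : ∀ n, n ≤ K' → P.eval (n : PadicAlgCl p) = f n := by
    intro n hn
    rw [hf]
    simp only [P, Polynomial.eval_finsetSum, Polynomial.eval_mul, Polynomial.eval_C]
    have hsub : range (n + 1) ⊆ range (K' + 1) := by
      intro k hk
      rw [Finset.mem_range] at hk ⊢
      omega
    rw [← Finset.sum_subset hsub]
    · refine Finset.sum_congr rfl fun k _ => ?_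
      rw [descPochhammer_eval_eq_descFactorial, Nat.descFactorial_eq_factorial_mul_choose]
      push_cast
      rw [← hιq k]
      ring
    · intro k _ hk
      rw [Finset.mem_range, not_lt] at hk
      rw [descPochhammer_eval_eq_descFactorial, Nat.descFactorial_of_lt (by omega)]
      simp
  set ρ := ‖(p : PadicAlgCl p)‖ with hρ
  have hρ0 : 0 < ρ := norm_p_pos
  have hρ1 : ρ < 1 := norm_p_lt_one
  have hdesc : ∀ j i : ℕ, ‖(descPochhammer (PadicAlgCl p) j).coeff i‖ ≤ 1 := by
    intro j i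
    rw [← descPochhammer_map (Int.castRingHom (PadicAlgCl p)) j, Polynomial.coeff_map]
    exact norm_intCast_le _
  have hbig : ∀ i, 2 * M + 1 < i → ‖P.coeff i‖ ≤ ρ ^ (M + 1) := by
    intro i hi
    simp only [P, Polynomial.finsetSum_coeff, Polynomial.coeff_C_mul]
    refine norm_sum_le_of _ _ (by positivity) fun j _ => ?_
    by_cases hj : i ≤ j
    · rw [norm_mul, norm_mul]
      have h1 : ‖ι (q j)‖ ≤ ρ ^ (M + 1) := norm_ι_le_of_dvd (hqM j (M + 1) (by omega))
      calc ‖w j‖ * ‖ι (q j)‖ * ‖(descPochhammer (PadicAlgCl p) j).coeff i‖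
          ≤ 1 * ρ ^ (M + 1) * 1 := by
            gcongr
            · exact hw j
            · exact hdesc j i
        _ = ρ ^ (M + 1) := by ring
    · push Not at hj
      rw [Polynomial.coeff_eq_zero_of_natDegree_lt (by rw [descPochhammer_natDegree]; exact hj),
        mul_zero, norm_zero]
      positivity
  have hexists : ∃ i, ρ ^ M ≤ ‖P.coeff i‖ := by
    by_contra hcon
    push Not at hcon
    have hval : ∀ n : ℕ, ‖P.eval (n : PadicAlgCl p)‖ < ρ ^ M := by
      intro n
      rw [Polynomial.eval_eq_sum_range]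
      refine norm_sum_lt_of _ _ (by positivity) fun i _ => ?_
      rw [norm_mul, norm_pow]
      calc ‖P.coeff i‖ * ‖(n : PadicAlgCl p)‖ ^ i ≤ ‖P.coeff i‖ * 1 := by
            gcongr
            exact pow_le_one₀ (norm_nonneg _) (norm_natCast_le n)
        _ < ρ ^ M := by rw [mul_one]; exact hcon i
    have h1 : ‖(fwdDiff 1)^[i₀] f 0‖ < ρ ^ M := by
      rw [fwdDiff_iter_eq_sum_shift]
      refine norm_sum_lt_of _ _ (by positivity) fun k hk => ?_
      rw [Finset.mem_range] at hk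
      have hle : k ≤ K' := by
        have := le_max_right K M
        omega
      rw [zsmul_eq_mul, norm_mul]
      have h2 : f (0 + k • 1) = P.eval (k : PadicAlgCl p) := by
        rw [hPeval k hle]
        simp
      rw [h2]
      calc _ ≤ 1 * ‖P.eval (k : PadicAlgCl p)‖ := by
            gcongr
            exact norm_intCast_le _
        _ < ρ ^ M := by rw [one_mul]; exact hval k
    rw [hfd, norm_mul, norm_pow, hw1, mul_one] at h1
    have h2 : ρ ^ M ≤ ρ ^ i₀ := pow_le_pow_of_le_one hρ0.le hρ1.le hi₀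
    linarith
  obtain ⟨i₁, hi₁⟩ := hexists
  have hi₁lt : i₁ ≤ P.natDegree := by
    by_contra hcon
    push Not at hcon
    rw [Polynomial.coeff_eq_zero_of_natDegree_lt hcon, norm_zero] at hi₁
    have : 0 < ρ ^ M := by positivity
    linarith
  obtain ⟨i₂, -, hi₂⟩ := Finset.exists_max_image (range (P.natDegree + 1))
    (fun i => ‖P.coeff i‖) ⟨0, Finset.mem_range.2 (Nat.succ_pos _)⟩
  have hmax : ∀ i, ‖P.coeff i‖ ≤ ‖P.coeff i₂‖ := by
    intro i
    by_cases hi : i < P.natDegree + 1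
    · exact hi₂ i (Finset.mem_range.2 hi)
    · rw [Polynomial.coeff_eq_zero_of_natDegree_lt (by omega), norm_zero]
      exact norm_nonneg _
  have hlow : ρ ^ M ≤ ‖P.coeff i₂‖ := hi₁.trans (hmax i₁)
  refine roots_le P i₂ (2 * M + 1) hmax (fun i hi => ?_) T fun n hn => ?_
  · calc ‖P.coeff i‖ ≤ ρ ^ (M + 1) := hbig i hi
      _ < ρ ^ M := pow_lt_pow_right_of_lt_one₀ hρ0 hρ1 (Nat.lt_succ_self M)
      _ ≤ ‖P.coeff i₂‖ := hlow
  · rw [hPeval n ((hKT n hn).trans (le_max_left _ _)), hT n hn]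

/-- **Uniform bound for the number of zeros** of the specialisations in the integers of the
algebraic closure of `ℚ_p` of an analytic sequence with values in a Noetherian ring. -/
theorem unif_zeros (hp3 : 3 ≤ p) {R : Type*} [CommRing R] [IsNoetherianRing R] (g : ℕ → R)
    (hg : An p g) : ∃ K : ℕ, ∀ σ : R →+* PadicAlgCl p, (∀ r, ‖σ r‖ ≤ 1) →
      {k | σ (g k) = 0}.encard ≤ K ∨ ∀ k, σ (g k) = 0 := by
  classical
  choose a ha using fun j => hg j 0
  obtain ⟨M, hM⟩ : ∃ M, ∀ j, a j ∈ Ideal.span (a '' {i | i ≤ M}) := by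
    let f : ℕ →o Ideal R := ⟨fun M => Ideal.span (a '' {i | i ≤ M}), fun M M' h =>
      Ideal.span_mono (Set.image_mono fun i hi => le_trans hi h)⟩
    obtain ⟨M, hM⟩ := monotone_stabilizes_iff_noetherian.2 (inferInstance : IsNoetherian R R) f
    refine ⟨M, fun j => ?_⟩
    have h1 : f M = f (max M j) := hM _ (le_max_left _ _)
    have h3 : j ∈ {i | i ≤ max M j} := le_max_right M j
    have h2 : a j ∈ f (max M j) := Ideal.subset_span ⟨j, h3, rfl⟩
    rw [← h1] at h2
    exact h2
  refine ⟨2 * M + 1, fun σ hσ1 => ?_⟩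
  have hnewton : ∀ (f : ℕ → PadicAlgCl p) (n : ℕ),
      f n = ∑ j ∈ range (n + 1), (n.choose j : PadicAlgCl p) * (fwdDiff 1)^[j] f 0 := by
    intro f n
    have h := shift_eq_sum_fwdDiff_iter (1 : ℕ) f n 0
    simp only [smul_eq_mul, mul_one, zero_add, nsmul_eq_mul] at h
    exact h
  have hfd : ∀ j, (fwdDiff 1)^[j] (fun m => σ (g m)) 0 = (p : PadicAlgCl p) ^ j * σ (a j) := by
    intro j
    rw [← Pool.Agent.Helper87.LD.map_fwdDiff, ha, map_mul, map_pow, map_natCast]
  have hσ : ∀ n, σ (g n) = ∑ j ∈ range (n + 1), (n.choose j : PadicAlgCl p) *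
      ((p : PadicAlgCl p) ^ j * σ (a j)) := by
    intro n
    rw [hnewton (fun m => σ (g m)) n]
    exact Finset.sum_congr rfl fun j _ => by rw [hfd]
  obtain ⟨i₀, hi₀, hmax⟩ := Finset.exists_max_image (Finset.range (M + 1)) (fun i => ‖σ (a i)‖)
    ⟨0, Finset.mem_range.2 (Nat.succ_pos M)⟩
  rw [Finset.mem_range] at hi₀
  -- the norms are bounded by the maximum over `i ≤ M`
  have hle : ∀ j, ‖σ (a j)‖ ≤ ‖σ (a i₀)‖ := by
    intro j
    have h1 : ∀ x ∈ Ideal.span (a '' {i | i ≤ M}), ‖σ x‖ ≤ ‖σ (a i₀)‖ := by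
      intro x hx
      refine Submodule.span_induction (p := fun x _ => ‖σ x‖ ≤ ‖σ (a i₀)‖) ?_ ?_ ?_ ?_ hx
      · rintro _ ⟨i, hi, rfl⟩
        have hi' : i ≤ M := hi
        exact hmax i (Finset.mem_range.2 (by omega))
      · rw [map_zero, norm_zero]
        exact norm_nonneg _
      · intro x y _ _ hx hy
        rw [map_add]
        exact (norm_add_le' _ _).trans (max_le hx hy)
      · intro r x _ hx
        rw [smul_eq_mul, map_mul, norm_mul]
        calc ‖σ r‖ * ‖σ x‖ ≤ 1 * ‖σ x‖ := by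
              gcongr
              exact hσ1 r
          _ ≤ ‖σ (a i₀)‖ := by rw [one_mul]; exact hx
    exact h1 _ (hM j)
  by_cases hb : σ (a i₀) = 0
  · right
    intro n
    rw [hσ]
    refine Finset.sum_eq_zero fun j _ => ?_
    have h1 := hle j
    rw [hb, norm_zero] at h1
    rw [norm_le_zero_iff.1 h1, mul_zero, mul_zero]
  left
  set b := σ (a i₀) with hbdef
  have hbpos : 0 < ‖b‖ := norm_pos_iff.2 hb
  let w : ℕ → PadicAlgCl p := fun j => b⁻¹ * σ (a j)
  have hw : ∀ j, ‖w j‖ ≤ 1 := by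
    intro j
    rw [norm_mul, norm_inv, inv_mul_le_iff₀ hbpos, mul_one]
    exact hle j
  have hw1 : ‖w i₀‖ = 1 := by
    show ‖b⁻¹ * b‖ = 1
    rw [inv_mul_cancel₀ hb, norm_one]
  have hmulfd : ∀ (h : ℕ → PadicAlgCl p) (k n : ℕ), (fwdDiff 1)^[k] (fun m => b⁻¹ * h m) n =
      b⁻¹ * (fwdDiff 1)^[k] h n := by
    intro h k
    induction k with
    | zero => intro n; rfl
    | succ k ih =>
      intro n
      rw [Function.iterate_succ_apply', Function.iterate_succ_apply']
      simp only [fwdDiff]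
      rw [ih, ih, mul_sub]
  by_contra hcon
  push Not at hcon
  obtain ⟨T', hT', hcard'⟩ : ∃ T' : Set ℕ, T' ⊆ {n | σ (g n) = 0} ∧
      T'.encard = (2 * M + 1 + 1 : ℕ) := by
    refine Set.exists_subset_encard_eq ?_
    have := Order.add_one_le_of_lt hcon
    exact_mod_cast this
  have hfin : T'.Finite := Set.finite_of_encard_eq_coe hcard'
  have hcard : hfin.toFinset.card = 2 * M + 1 + 1 := by
    have h1 := hfin.encard_eq_coe_toFinset_card
    rw [hcard'] at h1
    exact_mod_cast h1.symm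
  have h1 := newton_zeros hp3 w hw (Nat.lt_succ_iff.1 hi₀) hw1 (fun n => b⁻¹ * σ (g n)) (by
    intro n
    rw [hσ, Finset.mul_sum]
    exact Finset.sum_congr rfl fun j _ => by simp only [w]; ring) (by
    rw [hmulfd, hfd]
    simp only [w]
    ring) hfin.toFinset (by
    intro n hn
    have h2 : σ (g n) = 0 := hT' (hfin.mem_toFinset.1 hn)
    rw [h2, mul_zero])
  omega

end

end Pool.Agent.Helper26.FU
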