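import Mathlib
import Pool.Agent.Helper26.FU.Zer
import Pool.Agent.Helper87.LD.Cnt

/-!
# FU: a bound for the number of zeros which does not depend on the map
-/

set_option autoImplicit false

namespace Pool.Agent.Helper26.FU

open MvPolynomial Pool.Agent.Helper86.DML Pool.Agent.Helper26.FD Pool.Agent.Helper87.LD

noncomputable section

theorem An_univ {n : ℕ} {R : Type*} [CommRing R] (p : ℕ) (x₀ y : Fin n → R)
    (u : Fin n → MvPolynomial (Fin n) R) (G : MvPolynomial (Fin n) R) :
    An p (fun k => eval (fun i => x₀ i + (p : R) *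
      ((pmap (fun i => X i + C (p : R) * u i))^[k] y) i) G) := by
  have h1 := An_of_end ((bind₁ (fun i => X i + C (p : R) * u i)).toLinearMap :
    Module.End R (MvPolynomial (Fin n) R)) p (fun F => bind₁_congr_mod _ _ F)
    ((MvPolynomial.aeval y : MvPolynomial (Fin n) R →ₐ[R] R).toLinearMap)
    (zoom x₀ (p : R) G)
  have h2 : (fun k => eval (fun i => x₀ i + (p : R) *
      ((pmap (fun i => X i + C (p : R) * u i))^[k] y) i) G) = fun k =>
      ((MvPolynomial.aeval y : MvPolynomial (Fin n) R →ₐ[R] R).toLinearMap)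
        ((((bind₁ (fun i => X i + C (p : R) * u i)).toLinearMap :
          Module.End R (MvPolynomial (Fin n) R)) ^ k) (zoom x₀ (p : R) G)) := by
    funext k
    have h3 : ∀ (k : ℕ) (H : MvPolynomial (Fin n) R),
        ((((bind₁ (fun i => X i + C (p : R) * u i)).toLinearMap :
          Module.End R (MvPolynomial (Fin n) R)) ^ k) H) =
          ((bind₁ (fun i => X i + C (p : R) * u i)) ^ k) H := by
      intro k
      induction k with
      | zero => intro H; rfl
      | succ k ih =>
        intro H
        rw [pow_succ, Module.End.mul_apply, ih, pow_succ, AlgHom.mul_apply]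
        rfl
    have h4 : ∀ H : MvPolynomial (Fin n) R,
        (MvPolynomial.aeval y : MvPolynomial (Fin n) R →ₐ[R] R) H = eval y H := by
      intro H
      rw [← MvPolynomial.coe_aeval_eq_eval]
      rfl
    rw [h3, AlgHom.toLinearMap_apply, h4, eval_bind₁_pow, eval_zoom']
  rw [h2]
  exact h1

variable {p : ℕ} [hp : Fact p.Prime]

/-- one constant for all maps, all points and all polynomials -/
theorem univ_disc (hp3 : 3 ≤ p) (n : ℕ) (T S : Finset (Fin n →₀ ℕ)) :
    ∃ K : ℕ, ∀ (x₀ : Fin n → PadicAlgCl p) (u : Fin n → MvPolynomial (Fin n) (PadicAlgCl p))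
      (G : MvPolynomial (Fin n) (PadicAlgCl p)), (∀ i, ‖x₀ i‖ ≤ 1) →
      (∀ i, (u i).support ⊆ T) → (∀ i s, ‖coeff s (u i)‖ ≤ 1) → G.support ⊆ S →
      {k | eval (fun i => x₀ i + (p : PadicAlgCl p) *
        ((pmap (fun i => X i + C (p : PadicAlgCl p) * u i))^[k] 0) i) G = 0}.encard ≤ K ∨
      ∀ k, eval (fun i => x₀ i + (p : PadicAlgCl p) *
        ((pmap (fun i => X i + C (p : PadicAlgCl p) * u i))^[k] 0) i) G = 0 := by
  classical
  let V := Fin n ⊕ (Fin n × T) ⊕ S
  let R := MvPolynomial V ℤ
  let gx : Fin n → R := fun i => X (Sum.inl i)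
  let gu : Fin n → MvPolynomial (Fin n) R := fun i =>
    ∑ t : T, monomial t.1 (X (Sum.inr (Sum.inl (i, t))))
  let gG : MvPolynomial (Fin n) R := ∑ s : S, monomial s.1 (X (Sum.inr (Sum.inr s)))
  have hAn := An_univ p gx 0 gu gG
  obtain ⟨K, hK⟩ := unif_zeros hp3 _ hAn
  refine ⟨K, fun x₀ u G hx hu hun hG => ?_⟩
  -- normalisation of `G`
  by_cases hG0 : G = 0
  · right
    intro k
    rw [hG0, map_zero]
  obtain ⟨s₀, hs₀, hmax⟩ := Finset.exists_max_image G.support (fun s => ‖coeff s G‖)
    (support_nonempty.2 hG0)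
  have hc0 : coeff s₀ G ≠ 0 := mem_support_iff.1 hs₀
  set c := (coeff s₀ G)⁻¹ with hc
  have hcne : c ≠ 0 := inv_ne_zero hc0
  have hcoef : ∀ s, ‖coeff s (C c * G)‖ ≤ 1 := by
    intro s
    rw [coeff_C_mul, norm_mul, hc, norm_inv]
    have hpos : 0 < ‖coeff s₀ G‖ := norm_pos_iff.2 hc0
    rw [inv_mul_le_iff₀ hpos, mul_one]
    by_cases hs : s ∈ G.support
    · exact hmax s hs
    · rw [notMem_support_iff.1 hs, norm_zero]
      exact hpos.le
  let val : V → PadicAlgCl p := Sum.elim x₀ (Sum.elim (fun it => coeff it.2.1 (u it.1))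
    (fun s => coeff s.1 (C c * G)))
  let σ : R →+* PadicAlgCl p := eval₂Hom (Int.castRingHom (PadicAlgCl p)) val
  have hσX : ∀ v, σ (X v) = val v := fun v => eval₂Hom_X' _ _ _
  have hval : ∀ v, ‖val v‖ ≤ 1 := by
    rintro (i | it | s)
    · exact hx i
    · exact hun _ _
    · exact hcoef _
  have hσ1 : ∀ r, ‖σ r‖ ≤ 1 := by
    intro r
    induction r using MvPolynomial.induction_on with
    | C a =>
      have h1 : σ (C a) = (a : PadicAlgCl p) := eval₂Hom_C _ _ _
      rw [h1]
      exact norm_intCast_le a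
    | add F F' hF hF' =>
      rw [map_add]
      exact (norm_add_le' _ _).trans (max_le hF hF')
    | mul_X F v hF =>
      rw [map_mul, norm_mul, hσX]
      exact mul_le_one₀ hF (norm_nonneg _) (hval v)
  have hσu : ∀ i, map σ (gu i) = u i := by
    intro i
    simp only [gu, map_sum, map_monomial, hσX]
    have h1 : ∀ t : T, val (Sum.inr (Sum.inl (i, t))) = coeff t.1 (u i) := fun t => rfl
    simp only [h1]
    rw [Finset.sum_coe_sort T (fun s => monomial s (coeff s (u i)))]
    conv_rhs => rw [(u i).as_sum]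
    symm
    refine Finset.sum_subset (hu i) fun s _ hs => ?_
    rw [notMem_support_iff.1 hs, map_zero]
  have hσG : map σ gG = C c * G := by
    simp only [gG, map_sum, map_monomial, hσX]
    have h1 : ∀ s : S, val (Sum.inr (Sum.inr s)) = coeff s.1 (C c * G) := fun s => rfl
    simp only [h1]
    rw [Finset.sum_coe_sort S (fun s => monomial s (coeff s (C c * G)))]
    conv_rhs => rw [MvPolynomial.as_sum (C c * G)]
    symm
    have hsub : (C c * G).support ⊆ S := by
      intro s hs
      apply hG
      rw [mem_support_iff] at hs ⊢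
      intro h0
      apply hs
      rw [coeff_C_mul, h0, mul_zero]
    refine Finset.sum_subset hsub fun s _ hs => ?_
    rw [notMem_support_iff.1 hs, map_zero]
  have hfun : ∀ k, σ (eval (fun i => gx i + (p : R) *
      ((pmap (fun i => X i + C (p : R) * gu i))^[k] 0) i) gG) =
      c * eval (fun i => x₀ i + (p : PadicAlgCl p) *
        ((pmap (fun i => X i + C (p : PadicAlgCl p) * u i))^[k] 0) i) G := by
    intro k
    rw [eval_hom, hσG, map_mul, eval_C]
    congr 3
    funext i
    rw [map_add, map_mul, map_natCast, hσX]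
    have h1 := pmap_map_iterate σ (fun i => X i + C (p : R) * gu i) k (0 : Fin n → R)
    have h2 : (fun i => map σ (X i + C (p : R) * gu i)) =
        fun i => X i + C (p : PadicAlgCl p) * u i := by
      funext i
      rw [map_add, map_mul, map_X, map_C, map_natCast, hσu]
    have h3 : (fun i => σ ((0 : Fin n → R) i)) = (0 : Fin n → PadicAlgCl p) := by
      funext i
      exact map_zero σ
    rw [h2, h3] at h1
    rw [h1]
    rfl
  have h4 := hK σ hσ1
  simp only [hfun, mul_eq_zero, hcne, false_or] at h4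
  exact h4

end

end Pool.Agent.Helper26.FU
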