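import Mathlib
import Pool.Agent.Helper26.FU.Univ
import Pool.Agent.Helper87.LD.Unif

/-!
# FU: the dichotomy with uniform period, preperiod and number of zeros
-/

set_option autoImplicit false

namespace Pool.Agent.Helper26.FU

open MvPolynomial Pool.Agent.Helper86.DML Pool.Agent.Helper26.FD Pool.Agent.Helper87.LD

noncomputable section

section degrees

variable {n : ℕ} {O : Type*} [CommRing O]

theorem totalDegree_bind₁_le {d : ℕ} {ψ : Fin n → MvPolynomial (Fin n) O}
    (hψ : ∀ i, (ψ i).totalDegree ≤ d) (F : MvPolynomial (Fin n) O) :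
    (bind₁ ψ F).totalDegree ≤ d * F.totalDegree := by
  classical
  conv_lhs => rw [F.as_sum]
  rw [map_sum]
  refine totalDegree_finsetSum_le fun s hs => ?_
  rw [bind₁_monomial]
  refine (totalDegree_mul _ _).trans ?_
  rw [totalDegree_C, zero_add]
  refine (totalDegree_finsetProd _ _).trans ?_
  calc ∑ i ∈ s.support, (ψ i ^ s i).totalDegree ≤ ∑ i ∈ s.support, s i * d :=
        Finset.sum_le_sum fun i _ => (totalDegree_pow _ _).trans (Nat.mul_le_mul_left _ (hψ i))
    _ = d * s.degree := by rw [← Finset.sum_mul, mul_comm]; rfl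
    _ ≤ d * F.totalDegree := Nat.mul_le_mul_left _ (le_totalDegree hs)

theorem totalDegree_pow_bind₁_le {d : ℕ} {ψ : Fin n → MvPolynomial (Fin n) O}
    (hψ : ∀ i, (ψ i).totalDegree ≤ d) (k : ℕ) (F : MvPolynomial (Fin n) O) :
    (((bind₁ ψ) ^ k) F).totalDegree ≤ d ^ k * F.totalDegree := by
  induction k generalizing F with
  | zero => simp
  | succ k ih =>
    rw [pow_succ, AlgHom.mul_apply]
    refine (ih _).trans ?_
    rw [pow_succ, mul_assoc]
    exact Nat.mul_le_mul_left _ (totalDegree_bind₁_le hψ F)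

theorem totalDegree_zoom_le (x : Fin n → O) (q : O) (F : MvPolynomial (Fin n) O) :
    (zoom x q F).totalDegree ≤ F.totalDegree := by
  have h : ∀ i, (C (x i) + C q * X i : MvPolynomial (Fin n) O).totalDegree ≤ 1 := by
    intro i
    refine (totalDegree_add _ _).trans (max_le ?_ ?_)
    · rw [totalDegree_C]
      exact Nat.zero_le _
    · refine (totalDegree_mul _ _).trans ?_
      rw [totalDegree_C, zero_add]
      rcases subsingleton_or_nontrivial O with hO | hO
      · rw [Subsingleton.elim (X i : MvPolynomial (Fin n) O) 0]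
        simp
      · rw [totalDegree_X]
  have h1 := totalDegree_bind₁_le h F
  rw [one_mul] at h1
  exact h1

end degrees

variable {p : ℕ} [hp : Fact p.Prime] {n : ℕ}

section cards

variable {O : Type*} [CommRing O]

/-- a bound for the numbers of vectors and of affine maps modulo `p` -/
def bd (n p D : ℕ) : ℕ := (p ^ D) ^ ((n + 1) * (n + 1))

theorem card_quotient_le [Algebra ℤ_[p] O] [Module.Finite ℤ_[p] O] [Module.Free ℤ_[p] O] :
    Nat.card (O ⧸ Ideal.span {(p : O)}) ≤ p ^ Module.finrank ℤ_[p] O := by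
  classical
  let b := Module.Free.chooseBasis ℤ_[p] O
  have hsurj : Function.Surjective (fun c : Module.Free.ChooseBasisIndex ℤ_[p] O → Fin p =>
    Ideal.Quotient.mk (Ideal.span {(p : O)})
      (b.equivFun.symm fun i => ((c i : ℕ) : ℤ_[p]))) := by
    intro y
    obtain ⟨x, rfl⟩ := Ideal.Quotient.mk_surjective y
    refine ⟨fun i => ⟨(b.repr x i).zmodRepr, PadicInt.zmodRepr_lt_p _⟩, ?_⟩
    dsimp only
    rw [Ideal.Quotient.eq, Ideal.mem_span_singleton]
    have h := basis_dvd_iff b 1
      (b.equivFun.symm (fun i => (((b.repr x i).zmodRepr : ℕ) : ℤ_[p])) - x)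
    rw [pow_one] at h
    rw [h]
    intro i
    rw [map_sub, Finsupp.sub_apply, ← Module.Basis.equivFun_apply,
      LinearEquiv.apply_symm_apply, pow_one]
    have h2 := PadicInt.sub_zmodRepr_mem (b.repr x i)
    rw [PadicInt.maximalIdeal_eq_span_p, Ideal.mem_span_singleton] at h2
    rw [← neg_sub, dvd_neg]
    exact h2
  have h1 := Nat.card_le_card_of_surjective _ hsurj
  rw [Nat.card_fun, Nat.card_eq_fintype_card (α := Fin p), Fintype.card_fin,
    Nat.card_eq_fintype_card (α := Module.Free.ChooseBasisIndex ℤ_[p] O)] at h1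
  rw [Module.finrank_eq_card_chooseBasisIndex]
  exact h1

theorem card_affSub_le {R : Type*} [CommRing R] [Finite R] (n : ℕ) :
    Nat.card (affSub (Fin n) R) ≤ Nat.card R ^ (n + 1) := by
  classical
  have hmem : ∀ f : Option (Fin n) → R, (C (f none) + ∑ i, C (f (some i)) * X i :
      MvPolynomial (Fin n) R) ∈ affSub (Fin n) R := by
    intro f
    refine Submodule.add_mem _ (C_mem_affSub _) (Submodule.sum_mem _ fun i _ => ?_)
    rw [← MvPolynomial.smul_eq_C_mul]
    exact Submodule.smul_mem _ _ (X_mem_affSub i)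
  have hsurj : Function.Surjective (fun f : Option (Fin n) → R =>
      (⟨_, hmem f⟩ : affSub (Fin n) R)) := by
    rintro ⟨F, hF⟩
    have hF' : F ∈ Submodule.span R (insert 1 (Set.range X)) := hF
    rw [Submodule.mem_span_insert] at hF'
    obtain ⟨a, z, hz, rfl⟩ := hF'
    rw [Submodule.mem_span_range_iff_exists_fun] at hz
    obtain ⟨c, rfl⟩ := hz
    refine ⟨fun o => o.elim a c, Subtype.ext ?_⟩
    simp only [Option.elim_none, Option.elim_some, MvPolynomial.smul_eq_C_mul, mul_one]
  have h1 := Nat.card_le_card_of_surjective _ hsurj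
  rw [Nat.card_fun] at h1
  have h2 : Nat.card (Option (Fin n)) = n + 1 := by
    rw [Nat.card_eq_fintype_card, Fintype.card_option, Fintype.card_fin]
  rwa [h2] at h1

variable [Algebra ℤ_[p] O] [Module.Finite ℤ_[p] O] [Module.Free ℤ_[p] O]

theorem card_vec_le {D : ℕ} (hD : Module.finrank ℤ_[p] O ≤ D) :
    Nat.card (Fin n → O ⧸ Ideal.span {(p : O)}) ≤ bd n p D := by
  rw [Nat.card_fun, Nat.card_eq_fintype_card (α := Fin n), Fintype.card_fin, bd]
  have hp1 : 1 ≤ p ^ D := Nat.one_le_pow _ _ hp.out.pos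
  calc _ ≤ (p ^ D) ^ n := Nat.pow_le_pow_left (card_quotient_le.trans
        (Nat.pow_le_pow_right hp.out.pos hD)) _
    _ ≤ _ := Nat.pow_le_pow_right hp1 (by nlinarith)

theorem card_aff_le {D : ℕ} (hD : Module.finrank ℤ_[p] O ≤ D) :
    Nat.card (Fin n → affSub (Fin n) (O ⧸ Ideal.span {(p : O)})) ≤ bd n p D := by
  have hfinq := finite_quotient (p := p) (O := O)
  rw [Nat.card_fun, Nat.card_eq_fintype_card (α := Fin n), Fintype.card_fin, bd]
  have hp1 : 1 ≤ p ^ D := Nat.one_le_pow _ _ hp.out.pos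
  calc _ ≤ ((p ^ D) ^ (n + 1)) ^ n := Nat.pow_le_pow_left ((card_affSub_le n).trans
        (Nat.pow_le_pow_left (card_quotient_le.trans (Nat.pow_le_pow_right hp.out.pos hD)) _)) _
    _ = (p ^ D) ^ ((n + 1) * n) := by rw [← pow_mul]
    _ ≤ _ := Nat.pow_le_pow_right hp1 (by nlinarith)

end cards

section interp

variable {O : Type*} [CommRing O]

theorem idem_bind₁' {ι R : Type*} [Finite ι] [CommRing R] [Finite R] {ψ : ι → MvPolynomial ι R}
    (hψ : ∀ i, ψ i ∈ affSub ι R) {W : ℕ} (hW : Nat.card (ι → affSub ι R) ≤ W) :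
    (bind₁ ψ) ^ W.factorial * (bind₁ ψ) ^ W.factorial = (bind₁ ψ) ^ W.factorial := by
  have := affSub_finite (ι := ι) R
  have hmem : ∀ n i, ((bind₁ ψ) ^ n) (X i) ∈ affSub ι R := by
    intro n
    induction n with
    | zero => intro i; exact Submodule.subset_span (Set.mem_insert_of_mem _ ⟨i, rfl⟩)
    | succ n ih =>
      intro i
      rw [pow_succ', AlgHom.mul_apply]
      exact bind₁_mem_affSub hψ (ih i)
  obtain ⟨i, j, hij, hj, h⟩ := exists_coincidence
    (fun (n : ℕ) => (fun i => (⟨((bind₁ ψ) ^ n) (X i), hmem n i⟩ : affSub ι R)))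
  have h' : (bind₁ ψ) ^ i = (bind₁ ψ) ^ j := by
    apply MvPolynomial.algHom_ext
    intro k
    exact congrArg Subtype.val (congrFun h k)
  exact idem_factorial _ hij (hj.trans hW) h'

theorem iter_one' {p : ℕ} [Finite (O ⧸ Ideal.span {(p : O)})]
    (S : MvPolynomial (Fin n) O →ₐ[O] MvPolynomial (Fin n) O)
    (hSaff : ∀ i, map (Ideal.Quotient.mk (Ideal.span {(p : O)})) (S (X i)) ∈
      affSub (Fin n) (O ⧸ Ideal.span {(p : O)}))
    (hinj : Function.Injective
      (bind₁ (fun i => map (Ideal.Quotient.mk (Ideal.span {(p : O)})) (S (X i))))) {W : ℕ}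
    (hW : Nat.card (Fin n → affSub (Fin n) (O ⧸ Ideal.span {(p : O)})) ≤ W) :
    ∀ i, ∃ u, (S ^ W.factorial) (X i) = X i + C (p : O) * u := by
  set M := W.factorial with hM
  have hidem := idem_bind₁'
    (ψ := fun i => map (Ideal.Quotient.mk (Ideal.span {(p : O)})) (S (X i))) hSaff hW
  rw [← hM] at hidem
  have hinjM : ∀ k : ℕ, Function.Injective
      ((bind₁ (fun i => map (Ideal.Quotient.mk (Ideal.span {(p : O)})) (S (X i)))) ^ k) := by
    intro k
    induction k with
    | zero => exact fun a b hab => hab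
    | succ k ih =>
      intro a b hab
      rw [pow_succ, AlgHom.mul_apply, AlgHom.mul_apply] at hab
      exact hinj (ih hab)
  have hone : ∀ i, ((bind₁ (fun i => map (Ideal.Quotient.mk (Ideal.span {(p : O)})) (S (X i)))) ^ M)
      (X i) = X i := by
    intro i
    apply hinjM M
    rw [← AlgHom.mul_apply, hidem]
  have hSb : S = bind₁ (fun i => S (X i)) := by
    apply algHom_ext
    intro i
    rw [bind₁_X_right]
  intro i
  have h13 := map_bind₁_pow (Ideal.Quotient.mk (Ideal.span {(p : O)})) (fun i => S (X i)) M (X i)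
  rw [← hSb, map_X, hone] at h13
  have h14 : C (p : O) ∣ (S ^ M) (X i) - X i := by
    rw [C_dvd_iff_map_hom_eq_zero (Ideal.Quotient.mk (Ideal.span {(p : O)})) (p : O)]
    · rw [map_sub, h13, map_X, sub_self]
    · intro r
      rw [Ideal.Quotient.eq_zero_iff_mem, Ideal.mem_span_singleton]
  obtain ⟨u, hu⟩ := h14
  exact ⟨u, by rw [← hu]; ring⟩

theorem interp_unif' {p : ℕ} [Finite (O ⧸ Ideal.span {(p : O)})]
    (Φ : Fin n → MvPolynomial (Fin n) O) (x : ℕ → Fin n → O)
    (hx : ∀ k, x (k + 1) = pmap Φ (x k)) {ℓ : ℕ}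
    (hper : ∀ i, (p : O) ∣ x ℓ i - x 0 i)
    (hdet : ∀ k, IsUnit (Matrix.of fun i j => eval (x k) (pderiv j (Φ i))).det) {W : ℕ}
    (hW : Nat.card (Fin n → affSub (Fin n) (O ⧸ Ideal.span {(p : O)})) ≤ W) :
    ∃ u : Fin n → MvPolynomial (Fin n) O, ∀ i,
      zoom (x 0) (p : O) (((bind₁ Φ) ^ (ℓ * W.factorial)) (X i)) =
        C (x 0 i) + C (p : O) * (X i + C (p : O) * u i) := by
  have hper' : ∃ c : Fin n → O, ∀ i, x ℓ i - x 0 i = (p : O) * c i :=
    ⟨fun i => (hper i).choose, fun i => (hper i).choose_spec⟩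
  obtain ⟨c, hc⟩ := hper'
  obtain ⟨S, hS, hSaff, hinj⟩ := exists_interp1 Φ x hx hc hdet
  have hu := iter_one' S hSaff hinj hW
  refine ⟨fun i => (hu i).choose, fun i => ?_⟩
  have h16 : zoom (x 0) (p : O) (X i) = C (x 0 i) + C (p : O) * X i := bind₁_X_right _ _
  rw [loc_pow Φ (x 0) ℓ S hS, h16, map_add, map_mul, algHom_C, algHom_C, (hu i).choose_spec,
    algebraMap_eq]

end interp

/-- **The dichotomy**, with a preperiod, a period and a number of zeros which do not depend on the
ring `O` of rank at most `D`, the map `Φ` of degree at most `d`, the orbit and `G`. -/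
theorem dich_univ (hp3 : 3 ≤ p) (n d D : ℕ) (hd : 1 ≤ d) (S : Finset (Fin n →₀ ℕ)) :
    ∃ K : ℕ, ∀ (O : Type) [CommRing O] [Algebra ℤ_[p] O] [Module.Finite ℤ_[p] O]
      [Module.Free ℤ_[p] O], Module.finrank ℤ_[p] O ≤ D →
      ∀ Φ : Fin n → MvPolynomial (Fin n) O, (∀ i, (Φ i).totalDegree ≤ d) →
      ∀ x : ℕ → Fin n → O, (∀ k, x (k + 1) = pmap Φ (x k)) →
      (∀ i ℓ, 1 ≤ ℓ → (∀ j, (p : O) ∣ x (i + ℓ) j - x i j) →
        IsUnit (Matrix.of fun a b => eval (x i) (pderiv b (Φ a))).det) →
      ∀ ρ : O →+* PadicAlgCl p, (∀ z, ‖ρ z‖ ≤ 1) →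
      ∀ G : MvPolynomial (Fin n) (PadicAlgCl p), G.support ⊆ S → ∀ r : ℕ,
      {k | eval (fun i => ρ (x (bd n p D + r +
        (bd n p D).factorial * (bd n p D).factorial * k) i)) G = 0}.encard ≤ K ∨
        ∀ k, eval (fun i => ρ (x (bd n p D + r +
          (bd n p D).factorial * (bd n p D).factorial * k) i)) G = 0 := by
  classical
  set W := bd n p D with hW
  let T : Finset (Fin n →₀ ℕ) :=
    (Finsupp.finite_of_degree_le (σ := Fin n) (d ^ (W * W.factorial) + 1)).toFinset
  obtain ⟨K, hK⟩ := univ_disc hp3 n T S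
  refine ⟨K, ?_⟩
  intro O _ _ _ _ hrank Φ hΦ x hx hdet ρ hρ G hG r
  have hfinq := finite_quotient (p := p) (O := O)
  -- preperiodicity modulo `p`
  obtain ⟨n₀, ℓ, hℓ, hle, hper⟩ : ∃ n₀ ℓ, 1 ≤ ℓ ∧ n₀ + ℓ ≤ W ∧
      ∀ i, (p : O) ∣ x (n₀ + ℓ) i - x n₀ i := by
    obtain ⟨i, j, hij, hj, h⟩ := exists_coincidence
      (fun (k : ℕ) => (fun i => Ideal.Quotient.mk (Ideal.span {(p : O)}) (x k i)))
    obtain ⟨e, rfl⟩ := Nat.exists_eq_add_of_lt hij
    refine ⟨i, e + 1, by omega, hj.trans (card_vec_le hrank), fun k => ?_⟩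
    have h1 := congrFun h k
    rw [eq_comm, Ideal.Quotient.eq, Ideal.mem_span_singleton] at h1
    exact h1
  have hper1 : ∀ m i, (p : O) ∣ x (n₀ + m + ℓ) i - x (n₀ + m) i := by
    intro m
    induction m with
    | zero => exact hper
    | succ m ih =>
      intro i
      have h1 := eval_congr_mod ih (Φ i)
      have h2 : x (n₀ + (m + 1) + ℓ) i = eval (x (n₀ + m + ℓ)) (Φ i) := by
        have := congrFun (hx (n₀ + m + ℓ)) i
        have h3 : n₀ + (m + 1) + ℓ = n₀ + m + ℓ + 1 := by ring
        rw [h3, this]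
        rfl
      have h4 : x (n₀ + (m + 1)) i = eval (x (n₀ + m)) (Φ i) := congrFun (hx (n₀ + m)) i
      rw [h2, h4]
      exact h1
  set s := W + r with hs
  obtain ⟨s', hs'⟩ : ∃ s', s = n₀ + s' := ⟨s - n₀, by omega⟩
  obtain ⟨u, hu⟩ := interp_unif' (p := p) Φ (fun k => x (s + k)) (fun k => hx (s + k))
    (ℓ := ℓ) (fun i => by
      have := hper1 s' i
      rwa [← hs'] at this) (fun k => hdet (s + k) ℓ hℓ (fun i => by
        have h1 := hper1 (s' + k) i
        have h3 : n₀ + (s' + k) = s + k := by omega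
        rwa [h3] at h1)) (card_aff_le hrank)
  rw [← hW] at hu
  -- the degrees of the `u i`
  have hp0 : ∀ z : O, (p : O) * z = 0 → z = 0 := by
    intro z hz
    have h1 : (p : ℤ_[p]) • z = 0 := by
      rw [Algebra.smul_def, map_natCast]
      exact hz
    exact (smul_eq_zero.1 h1).resolve_left (by exact_mod_cast hp.out.ne_zero)
  have husupp : ∀ i, (map ρ (u i)).support ⊆ T := by
    intro i t ht
    rw [Set.Finite.mem_toFinset, Set.mem_ofPred_eq]
    by_contra hcon
    push Not at hcon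
    have ht1 : coeff t (u i) ≠ 0 := by
      intro h0
      rw [mem_support_iff, coeff_map, h0, map_zero] at ht
      exact ht rfl
    apply ht1
    have h1 : (zoom (x s) (p : O) (((bind₁ Φ) ^ (ℓ * W.factorial)) (X i))).totalDegree ≤
        d ^ (W * W.factorial) + 1 := by
      refine (totalDegree_zoom_le _ _ _).trans ((totalDegree_pow_bind₁_le hΦ _ _).trans ?_)
      have h2 : (X i : MvPolynomial (Fin n) O).totalDegree ≤ 1 := by
        rcases subsingleton_or_nontrivial O with hO | hO
        · rw [Subsingleton.elim (X i : MvPolynomial (Fin n) O) 0]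
          simp
        · rw [totalDegree_X]
      calc _ ≤ d ^ (W * W.factorial) * 1 := Nat.mul_le_mul (Nat.pow_le_pow_right hd
            (Nat.mul_le_mul_right _ (by omega))) h2
        _ ≤ _ := by omega
    have h3 : coeff t (zoom (x s) (p : O) (((bind₁ Φ) ^ (ℓ * W.factorial)) (X i))) = 0 :=
      coeff_eq_zero_of_totalDegree_lt (lt_of_le_of_lt h1 hcon)
    have h4 := congrArg (coeff t) (hu i)
    simp only [add_zero] at h4
    rw [h3, coeff_add, coeff_C_mul, coeff_add, coeff_C_mul, coeff_C] at h4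
    have ht0 : (0 : Fin n →₀ ℕ) ≠ t := by
      rintro rfl
      rw [map_zero] at hcon
      omega
    have htX : coeff t (X i : MvPolynomial (Fin n) O) = 0 := by
      rw [coeff_X]
      rw [if_neg]
      rintro rfl
      rw [Finsupp.degree_single] at hcon
      omega
    rw [if_neg ht0, htX, zero_add, zero_add] at h4
    exact hp0 _ (hp0 _ h4.symm)
  have hseq : ∀ k, (fun i => ρ (x (s + ℓ * W.factorial * k) i)) = fun i => ρ (x s i) +
      (p : PadicAlgCl p) * ((pmap (fun i => X i + C (p : PadicAlgCl p) * map ρ (u i)))^[k] 0) i := by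
    intro k
    have h1 := interp_iter ρ hu (0 : Fin n → PadicAlgCl p) k
    simp only [Pi.zero_apply, mul_zero, add_zero] at h1
    rw [← h1]
    have h2 : ∀ (k : ℕ) (z : Fin n → O), (pmap (fun i => map ρ (Φ i)))^[k] (fun i => ρ (z i)) =
        fun i => ρ ((pmap Φ)^[k] z i) := by
      intro k
      induction k with
      | zero => intro z; rfl
      | succ k ih =>
        intro z
        rw [Function.iterate_succ_apply, Function.iterate_succ_apply, ← ih]
        congr 1
        funext i
        rw [pmap, pmap, eval_map, eval₂_comp]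
        rfl
    rw [h2, seq_iter hx]
  obtain ⟨m, hm⟩ : ℓ ∣ W.factorial := Nat.dvd_factorial (by omega) (by omega)
  have hm1 : 1 ≤ m := by
    by_contra hcon
    have h0 : m = 0 := by omega
    rw [h0, mul_zero] at hm
    exact absurd hm (Nat.factorial_pos _).ne'
  have h5 : ∀ k, s + W.factorial * W.factorial * k = s + ℓ * W.factorial * (m * k) := by
    intro k
    have h6 : W.factorial * W.factorial * k = ℓ * m * W.factorial * k := by
      rw [← hm]
    rw [h6]
    ring
  have h7 := hK (fun i => ρ (x s i)) (fun i => map ρ (u i)) G (fun i => hρ _) husupp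
    (fun i t => by rw [coeff_map]; exact hρ _) hG
  simp only [← hseq] at h7
  simp only [h5]
  rcases h7 with h7 | h7
  · left
    exact encard_mul_le hm1 h7
  · right
    exact fun k => h7 (m * k)

end

end Pool.Agent.Helper26.FU
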