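import Mathlib
import Pool.Agent.Helper26.FU.Unif

/-!
# FU: the action on products
-/

set_option autoImplicit false

namespace Pool.Agent.Helper26.FU

open MvPolynomial Pool.Agent.Helper86.DML Pool.Agent.Helper26.FD

noncomputable section

variable {k n : ℕ}

section basic

variable {O : Type*} [CommRing O]

/-- the vector of all coordinates -/
def flat (x : Fin k → Fin n → O) : Fin (k * n) → O := fun c =>
  x (finProdFinEquiv.symm c).1 (finProdFinEquiv.symm c).2

omit [CommRing O] in
theorem flat_apply (x : Fin k → Fin n → O) (c : Fin k × Fin n) :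
    flat x (finProdFinEquiv c) = x c.1 c.2 := by
  rw [flat, Equiv.symm_apply_apply]

/-- the product action -/
def blk (Φ : Fin k → Fin n → MvPolynomial (Fin n) O) :
    Fin (k * n) → MvPolynomial (Fin (k * n)) O := fun c =>
  rename (fun j => finProdFinEquiv ((finProdFinEquiv.symm c).1, j))
    (Φ (finProdFinEquiv.symm c).1 (finProdFinEquiv.symm c).2)

theorem pmap_blk (Φ : Fin k → Fin n → MvPolynomial (Fin n) O) (x : Fin k → Fin n → O) :
    pmap (blk Φ) (flat x) = flat (fun b => pmap (Φ b) (x b)) := by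
  funext c
  rw [pmap, blk, eval_rename]
  have h : (flat x ∘ fun j => finProdFinEquiv ((finProdFinEquiv.symm c).1, j)) =
      x (finProdFinEquiv.symm c).1 := by
    funext j
    exact flat_apply x _
  rw [h]
  rfl

theorem totalDegree_blk {d : ℕ} {Φ : Fin k → Fin n → MvPolynomial (Fin n) O}
    (hΦ : ∀ b i, (Φ b i).totalDegree ≤ d) (c : Fin (k * n)) : (blk Φ c).totalDegree ≤ d :=
  (totalDegree_rename_le _ _).trans (hΦ _ _)

theorem jac_blk (Φ : Fin k → Fin n → MvPolynomial (Fin n) O) (x : Fin k → Fin n → O)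
    (h : ∀ b, IsUnit (Matrix.of fun i j => eval (x b) (pderiv j (Φ b i))).det) :
    IsUnit (Matrix.of fun a c => eval (flat x) (pderiv c (blk Φ a))).det := by
  classical
  let M : Fin k → Matrix (Fin n) (Fin n) O := fun b =>
    Matrix.of fun i j => eval (x b) (pderiv j (Φ b i))
  let ε : Fin (k * n) ≃ Fin n × Fin k := finProdFinEquiv.symm.trans (Equiv.prodComm _ _)
  have h1 : (Matrix.of fun a c => eval (flat x) (pderiv c (blk Φ a))) =
      Matrix.reindex ε.symm ε.symm (Matrix.blockDiagonal M) := by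
    ext a c
    rw [Matrix.reindex_apply, Matrix.submatrix_apply, Equiv.symm_symm, Matrix.of_apply]
    obtain ⟨⟨b₁, i⟩, rfl⟩ := finProdFinEquiv.surjective a
    obtain ⟨⟨b₂, j⟩, rfl⟩ := finProdFinEquiv.surjective c
    have hε : ∀ (b : Fin k) (i : Fin n), ε (finProdFinEquiv (b, i)) = (i, b) := by
      intro b i
      simp [ε]
    rw [hε, hε, Matrix.blockDiagonal_apply]
    rw [blk, Equiv.symm_apply_apply]
    dsimp only
    by_cases hb : b₁ = b₂
    · subst hb
      rw [if_pos rfl]
      have hinj : Function.Injective (fun j : Fin n => finProdFinEquiv (b₁, j)) := by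
        intro j j' hjj'
        have h2 := finProdFinEquiv.injective hjj'
        exact (Prod.mk.inj h2).2
      have h2 : pderiv (finProdFinEquiv (b₁, j))
          (rename (fun j' => finProdFinEquiv (b₁, j')) (Φ b₁ i)) =
          rename (fun j' => finProdFinEquiv (b₁, j')) (pderiv j (Φ b₁ i)) :=
        pderiv_rename hinj j (Φ b₁ i)
      rw [h2, eval_rename]
      have h3 : (flat x ∘ fun j => finProdFinEquiv (b₁, j)) = x b₁ := by
        funext j
        exact flat_apply x _
      rw [h3]
      rfl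
    · rw [if_neg hb, pderiv_eq_zero_of_notMem_vars, map_zero]
      intro hmem
      have h2 := vars_rename _ _ hmem
      rw [Finset.mem_image] at h2
      obtain ⟨j', -, hj'⟩ := h2
      have h3 := finProdFinEquiv.injective hj'
      exact hb (Prod.mk.inj h3).1
  rw [h1, Matrix.det_reindex_self, Matrix.det_blockDiagonal]
  exact IsUnit.prod_univ_iff.2 h

end basic

variable {p : ℕ} [hp : Fact p.Prime]

/-- the dichotomy for the product action -/
theorem dich_blk (hp3 : 3 ≤ p) (k n d D : ℕ) (hd : 1 ≤ d) (S : Finset (Fin k × Fin n →₀ ℕ)) :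
    ∃ K : ℕ, ∀ (O : Type) [CommRing O] [Algebra ℤ_[p] O] [Module.Finite ℤ_[p] O]
      [Module.Free ℤ_[p] O], Module.finrank ℤ_[p] O ≤ D →
      ∀ Φ : Fin k → Fin n → MvPolynomial (Fin n) O, (∀ b i, (Φ b i).totalDegree ≤ d) →
      ∀ x : ℕ → Fin k → Fin n → O, (∀ m b, x (m + 1) b = pmap (Φ b) (x m b)) →
      (∀ i ℓ, 1 ≤ ℓ → (∀ b j, (p : O) ∣ x (i + ℓ) b j - x i b j) →
        ∀ b, IsUnit (Matrix.of fun a c => eval (x i b) (pderiv c (Φ b a))).det) →
      ∀ ρ : O →+* PadicAlgCl p, (∀ z, ‖ρ z‖ ≤ 1) →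
      ∀ G : MvPolynomial (Fin k × Fin n) (PadicAlgCl p), G.support ⊆ S → ∀ r : ℕ,
      {m | eval (fun c => ρ (x (bd (k * n) p D + r +
        (bd (k * n) p D).factorial * (bd (k * n) p D).factorial * m) c.1 c.2)) G = 0}.encard ≤ K ∨
        ∀ m, eval (fun c => ρ (x (bd (k * n) p D + r +
          (bd (k * n) p D).factorial * (bd (k * n) p D).factorial * m) c.1 c.2)) G = 0 := by
  classical
  obtain ⟨K, hK⟩ := dich_univ (p := p) hp3 (k * n) d D hd
    (S.image (Finsupp.mapDomain (finProdFinEquiv (m := k) (n := n))))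
  refine ⟨K, ?_⟩
  intro O _ _ _ _ hrank Φ hΦ x hx hdet ρ hρ G hG r
  have h1 := hK O hrank (blk Φ) (totalDegree_blk hΦ) (fun m => flat (x m)) (fun m => by
    rw [pmap_blk]
    congr 1
    funext b
    exact hx m b) (fun i ℓ hℓ hper => by
    apply jac_blk
    refine hdet i ℓ hℓ fun b j => ?_
    have h2 := hper (finProdFinEquiv (b, j))
    rwa [flat_apply, flat_apply] at h2) ρ hρ (rename finProdFinEquiv G) (by
    rw [support_rename_of_injective finProdFinEquiv.injective]
    exact Finset.image_subset_image hG) r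
  have h2 : ∀ m, eval (fun i => ρ (flat (x m) i)) (rename finProdFinEquiv G) =
      eval (fun c => ρ (x m c.1 c.2)) G := by
    intro m
    rw [eval_rename]
    congr 2
    funext c
    exact congrArg ρ (flat_apply (x m) c)
  simp only [h2] at h1
  exact h1

end

end Pool.Agent.Helper26.FU
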