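import Mathlib
import Pool.Agent.Helper26.FU.Blk
import Pool.Agent.Helper26.FD.Pad

/-!
# FU: orbits over finite extensions of `ℚ_p`
-/

set_option autoImplicit false

namespace Pool.Agent.Helper26.FU

open MvPolynomial Pool.Agent.Helper86.DML Pool.Agent.Helper26.FD

noncomputable section

variable {p : ℕ} [hp : Fact p.Prime]

theorem finrank_subalgebra_le (O : Subalgebra ℤ_[p] (PadicAlgCl p)) [Module.Finite ℤ_[p] O]
    [Module.Free ℤ_[p] O] (L : Submodule ℚ_[p] (PadicAlgCl p)) [FiniteDimensional ℚ_[p] L]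
    (h : ∀ z ∈ O, z ∈ L) : Module.finrank ℤ_[p] O ≤ Module.finrank ℚ_[p] L := by
  classical
  let b := Module.Free.chooseBasis ℤ_[p] O
  have h1 : LinearIndependent ℤ_[p] (fun i => ((b i : O) : PadicAlgCl p)) := by
    have h2 := b.linearIndependent.map' O.toSubmodule.subtype (Submodule.ker_subtype _)
    exact h2
  have h2 : LinearIndependent ℚ_[p] (fun i => ((b i : O) : PadicAlgCl p)) :=
    (LinearIndependent.iff_fractionRing ℤ_[p] ℚ_[p]).1 h1
  have h3 : LinearIndependent ℚ_[p] (fun i => (⟨((b i : O) : PadicAlgCl p), h _ (b i).2⟩ : L)) := by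
    apply LinearIndependent.of_comp L.subtype
    exact h2
  rw [Module.finrank_eq_card_chooseBasisIndex]
  exact h3.fintype_card_le_finrank

theorem norm_adjoin_le {A : Set (PadicAlgCl p)} (hA : ∀ a ∈ A, ‖a‖ ≤ 1) {z : PadicAlgCl p}
    (hz : z ∈ Algebra.adjoin ℤ_[p] A) : ‖z‖ ≤ 1 := by
  induction hz using Algebra.adjoin_induction with
  | mem x hx => exact hA x hx
  | algebraMap r =>
    have h1 : algebraMap ℤ_[p] (PadicAlgCl p) r = ι r := rfl
    rw [h1, norm_ι]
    exact PadicInt.norm_le_one r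
  | add x y _ _ hx hy => exact (norm_add_le' _ _).trans (max_le hx hy)
  | mul x y _ _ hx hy =>
    rw [norm_mul]
    exact mul_le_one₀ hx (norm_nonneg _) hy

/-- the map `Fb + p * H` -/
def pert {n : ℕ} (p : ℕ) {R : Type*} [CommRing R] (Fb : Fin n → MvPolynomial (Fin n) ℤ)
    (H : Fin n → MvPolynomial (Fin n) R) : Fin n → MvPolynomial (Fin n) R :=
  fun i => map (Int.castRingHom R) (Fb i) + C (p : R) * H i

omit hp in
theorem pmap_pert {n : ℕ} {R k : Type*} [CommRing R] [CommRing k] (π : R →+* k)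
    (hπ : π (p : R) = 0) (Fb : Fin n → MvPolynomial (Fin n) ℤ)
    (H : Fin n → MvPolynomial (Fin n) R) (y : Fin n → R) :
    (fun i => π (pmap (pert p Fb H) y i)) = fmap k Fb (fun i => π (y i)) := by
  funext i
  rw [pmap, pert, map_add, map_mul, eval_C, map_add, map_mul, hπ, zero_mul, add_zero, fmap,
    eval_map, aeval_def, eval₂_comp_left]
  have h : π.comp (Int.castRingHom R) = algebraMap ℤ k := RingHom.ext_int _ _
  rw [h]
  rfl

omit hp in
theorem pderiv_pert {n : ℕ} {R k : Type*} [CommRing R] [CommRing k] (π : R →+* k)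
    (hπ : π (p : R) = 0) (Fb : Fin n → MvPolynomial (Fin n) ℤ)
    (H : Fin n → MvPolynomial (Fin n) R) (y : Fin n → R) (a b : Fin n) :
    π (eval y (pderiv b (pert p Fb H a))) = aeval (fun i => π (y i)) (pderiv b (Fb a)) := by
  have h0 : pderiv b (C (p : R) * H a) = C (p : R) * pderiv b (H a) := pderiv_C_mul
  rw [pert, map_add, h0, map_add, map_mul, eval_C, map_add, map_mul, hπ, zero_mul, add_zero,
    pderiv_map, eval_map, aeval_def, eval₂_comp_left]
  have h : π.comp (Int.castRingHom R) = algebraMap ℤ k := RingHom.ext_int _ _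
  rw [h]
  rfl

/-- In the fields of characteristic `p` with at most `E` elements the polynomials `F i` have no common
nontrivial zero, and the Jacobian determinant does not vanish at the nonzero periodic vectors. -/
def GoodFin {n : ℕ} (p E : ℕ) (F : Fin n → MvPolynomial (Fin n) ℤ) : Prop :=
  ∀ (κ : Type) [Field κ] [CharP κ p] [Finite κ], Nat.card κ ≤ E → ∀ x : Fin n → κ, x ≠ 0 →
    fmap κ F x ≠ 0 ∧ ∀ m, 1 ≤ m → (fmap κ F)^[m] x = x →
      (Matrix.of fun i j => aeval x (pderiv j (F i))).det ≠ 0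

omit hp in
theorem GoodAt.goodFin {n : ℕ} {F : Fin n → MvPolynomial (Fin n) ℤ} (h : GoodAt p F) (E : ℕ) :
    GoodFin p E F := fun κ _ _ _ _ x hx => h κ x hx

theorem card_residue_le {O : Type} [CommRing O] [Algebra ℤ_[p] O] [Module.Finite ℤ_[p] O]
    [Module.Free ℤ_[p] O] (m : Ideal O) [m.IsMaximal] :
    Finite (O ⧸ m) ∧ Nat.card (O ⧸ m) ≤ p ^ Module.finrank ℤ_[p] O := by
  have hfinq := finite_quotient (p := p) (O := O)
  have hle : Ideal.span {(p : O)} ≤ m := by
    rw [Ideal.span_le, Set.singleton_subset_iff]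
    exact p_mem_maximal m
  have hsurj : Function.Surjective (Ideal.Quotient.factor hle) :=
    Ideal.Quotient.factor_surjective hle
  exact ⟨Finite.of_surjective _ hsurj,
    (Nat.card_le_card_of_surjective _ hsurj).trans card_quotient_le⟩

/-- **Orbits over algebras over `ℚ_p` of dimension at most `D`**, for product actions. -/
theorem main_padic (hp3 : 3 ≤ p) (k n d D : ℕ) (hd : 1 ≤ d) (S : Finset (Fin k × Fin n →₀ ℕ)) :
    ∃ K : ℕ, ∀ (Fb : Fin k → Fin n → MvPolynomial (Fin n) ℤ), (∀ b, GoodFin p (p ^ D) (Fb b)) →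
      ∀ (L : Subalgebra ℚ_[p] (PadicAlgCl p)) [FiniteDimensional ℚ_[p] L],
      Module.finrank ℚ_[p] L ≤ D →
      ∀ H : Fin k → Fin n → MvPolynomial (Fin n) (PadicAlgCl p), (∀ b i s, ‖coeff s (H b i)‖ ≤ 1) →
      (∀ b i s, coeff s (H b i) ∈ L) → (∀ b i, (pert p (Fb b) (H b) i).totalDegree ≤ d) →
      ∀ β : Fin k → Fin n → PadicAlgCl p, (∀ b i, ‖β b i‖ ≤ 1) → (∀ b i, β b i ∈ L) →
      ∀ i₀ : Fin k → Fin n, (∀ b, β b (i₀ b) = 1) →
      ∀ G : MvPolynomial (Fin k × Fin n) (PadicAlgCl p), G.support ⊆ S → ∀ r : ℕ,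
      {m | eval (fun c => (pmap (pert p (Fb c.1) (H c.1)))^[bd (k * n) p D + r +
        (bd (k * n) p D).factorial * (bd (k * n) p D).factorial * m] (β c.1) c.2) G = 0}.encard ≤ K ∨
        ∀ m, eval (fun c => (pmap (pert p (Fb c.1) (H c.1)))^[bd (k * n) p D + r +
          (bd (k * n) p D).factorial * (bd (k * n) p D).factorial * m] (β c.1) c.2) G = 0 := by
  classical
  obtain ⟨K, hK⟩ := dich_blk hp3 k n d D hd S
  refine ⟨K, ?_⟩
  intro Fb hG L _ hL H hH1 hHL hdeg β hβ hβL i₀ hβ1 G hGS r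
  let A : Set (PadicAlgCl p) := Set.range (fun c : Fin k × Fin n => β c.1 c.2) ∪
    ⋃ c : Fin k × Fin n, (fun s => coeff s (H c.1 c.2)) ''
      ((H c.1 c.2).support : Set (Fin n →₀ ℕ))
  have hAfin : A.Finite := (Set.finite_range _).union
    (Set.finite_iUnion fun c => (H c.1 c.2).support.finite_toSet.image _)
  have hA1 : ∀ a ∈ A, ‖a‖ ≤ 1 := by
    rintro a (⟨c, rfl⟩ | ha)
    · exact hβ _ _
    · rw [Set.mem_iUnion] at ha
      obtain ⟨i, s, -, rfl⟩ := ha
      exact hH1 _ _ s
  have hAL : ∀ a ∈ A, a ∈ L := by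
    rintro a (⟨c, rfl⟩ | ha)
    · exact hβL _ _
    · rw [Set.mem_iUnion] at ha
      obtain ⟨i, s, -, rfl⟩ := ha
      exact hHL _ _ s
  let O : Subalgebra ℤ_[p] (PadicAlgCl p) := Algebra.adjoin ℤ_[p] A
  obtain ⟨hfin, hfree⟩ := adjoin_finite (p := p) hAfin
    (fun a ha => isIntegral_of_norm_le_one _ (hA1 a ha))
  have hOL : ∀ z ∈ O, z ∈ L.toSubmodule := by
    intro z hz
    have h1 : O ≤ L.restrictScalars ℤ_[p] := Algebra.adjoin_le hAL
    exact h1 hz
  have hrank : Module.finrank ℤ_[p] O ≤ D := by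
    have : FiniteDimensional ℚ_[p] L.toSubmodule :=
      (inferInstance : FiniteDimensional ℚ_[p] L)
    exact (finrank_subalgebra_le O L.toSubmodule hOL).trans hL
  have hρ : ∀ z : O, ‖(O.val : O →+* PadicAlgCl p) z‖ ≤ 1 := fun z => norm_adjoin_le hA1 z.2
  let x₀ : Fin k → Fin n → O := fun b i =>
    ⟨β b i, Algebra.subset_adjoin (Or.inl ⟨(b, i), rfl⟩)⟩
  have hHO : ∀ b i, ∃ H' : MvPolynomial (Fin n) O,
      map (O.val : O →+* PadicAlgCl p) H' = H b i := by
    intro b i
    have h7 : H b i ∈ Set.range (MvPolynomial.map (σ := Fin n) (O.val : O →+* PadicAlgCl p)) := by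
      rw [mem_range_map_iff_coeffs_subset]
      intro a ha
      rw [Finset.mem_coe, mem_coeffs_iff] at ha
      obtain ⟨s, hs, rfl⟩ := ha
      exact ⟨⟨_, Algebra.subset_adjoin (Or.inr (Set.mem_iUnion.2 ⟨(b, i), s, hs, rfl⟩))⟩, rfl⟩
    exact h7
  choose H' hH' using hHO
  let Φ : Fin k → Fin n → MvPolynomial (Fin n) O := fun b => pert p (Fb b) (H' b)
  have hmapΦ : ∀ b i, map (O.val : O →+* PadicAlgCl p) (Φ b i) = pert p (Fb b) (H b) i := by
    intro b i
    simp only [Φ, pert]
    rw [map_add, map_mul, map_C, hH', map_natCast, map_map]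
    congr 2
  let x : ℕ → Fin k → Fin n → O := fun m b => (pmap (Φ b))^[m] (x₀ b)
  have hx : ∀ m b, x (m + 1) b = pmap (Φ b) (x m b) := fun m b =>
    Function.iterate_succ_apply' _ _ _
  have hΦdeg : ∀ b i, (Φ b i).totalDegree ≤ d := by
    intro b i
    have h1 := hdeg b i
    rw [← hmapΦ, totalDegree, support_map_of_injective _ Subtype.val_injective] at h1
    exact h1
  have hdet : ∀ i ℓ, 1 ≤ ℓ → (∀ b j, (p : O) ∣ x (i + ℓ) b j - x i b j) →
      ∀ b, IsUnit (Matrix.of fun a c => eval (x i b) (pderiv c (Φ b a))).det := by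
    intro i ℓ hℓ hper b
    by_contra hnu
    obtain ⟨m, hm, hmem⟩ := exists_max_ideal_of_mem_nonunits hnu
    let : Field (O ⧸ m) := Ideal.Quotient.field m
    let π := Ideal.Quotient.mk m
    obtain ⟨hfm, hcm⟩ := card_residue_le (p := p) m
    have hcm' : Nat.card (O ⧸ m) ≤ p ^ D := hcm.trans (Nat.pow_le_pow_right hp.out.pos hrank)
    have hπp : π (p : O) = 0 := Ideal.Quotient.eq_zero_iff_mem.2 (p_mem_maximal m)
    have hpk : ((p : ℕ) : O ⧸ m) = 0 := by
      have h1 := hπp
      rw [map_natCast] at h1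
      exact h1
    have hchar : CharP (O ⧸ m) p := ringChar.of_eq (CharP.ringChar_of_prime_eq_zero hp.out hpk)
    have hG' := hG b (O ⧸ m) hcm'
    have hxk : ∀ l, (fmap (O ⧸ m) (Fb b))^[l] (fun i => π (x₀ b i)) = fun i => π (x l b i) := by
      intro l
      induction l with
      | zero => rfl
      | succ l ih =>
        rw [Function.iterate_succ_apply', ih, hx]
        exact (pmap_pert π hπp (Fb b) (H' b) (x l b)).symm
    have hne : (fun i => π (x₀ b i)) ≠ 0 := by
      intro h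
      have h2 := congrFun h (i₀ b)
      have h3 : x₀ b (i₀ b) = 1 := Subtype.ext (hβ1 b)
      rw [h3, map_one] at h2
      exact one_ne_zero h2
    have hnei : ∀ l, (fmap (O ⧸ m) (Fb b))^[l] (fun i => π (x₀ b i)) ≠ 0 := by
      intro l
      induction l with
      | zero => exact hne
      | succ l ih =>
        rw [Function.iterate_succ_apply']
        exact (hG' _ ih).1
    have hper' : (fmap (O ⧸ m) (Fb b))^[ℓ] (fun j => π (x i b j)) = fun j => π (x i b j) := by
      have h4 := hxk (i + ℓ)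
      rw [add_comm, Function.iterate_add_apply, hxk] at h4
      rw [h4]
      funext j
      have h5 : x (ℓ + i) b j - x i b j ∈ m := by
        obtain ⟨w, hw⟩ := hper b j
        rw [add_comm ℓ i, hw]
        exact m.mul_mem_right _ (p_mem_maximal m)
      exact (Ideal.Quotient.eq).2 h5
    have hgood := (hG' (fun j => π (x i b j)) (by
      rw [← hxk]
      exact hnei i)).2 ℓ hℓ hper'
    apply hgood
    have h6 : (Matrix.of fun a c => aeval (fun j => π (x i b j)) (pderiv c (Fb b a))) =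
        π.mapMatrix (Matrix.of fun a c => eval (x i b) (pderiv c (Φ b a))) := by
      ext a c
      rw [RingHom.mapMatrix_apply, Matrix.map_apply, Matrix.of_apply, Matrix.of_apply]
      exact (pderiv_pert π hπp (Fb b) (H' b) (x i b) a c).symm
    have h7 := congrArg Matrix.det h6
    rw [← RingHom.map_det] at h7
    exact h7.trans (Ideal.Quotient.eq_zero_iff_mem.2 hmem)
  have h8 := hK O hrank Φ hΦdeg x hx hdet (O.val : O →+* PadicAlgCl p) hρ G hGS r
  have h9 : ∀ m, (fun c : Fin k × Fin n => (O.val : O →+* PadicAlgCl p) (x m c.1 c.2)) =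
      fun c => (pmap (pert p (Fb c.1) (H c.1)))^[m] (β c.1) c.2 := by
    intro m
    funext c
    have h10 := Pool.Agent.Helper87.LD.pmap_map_iterate (O.val : O →+* PadicAlgCl p) (Φ c.1) m
      (x₀ c.1)
    have h11 : (fun i => map (O.val : O →+* PadicAlgCl p) (Φ c.1 i)) =
        pert p (Fb c.1) (H c.1) := funext (hmapΦ c.1)
    rw [h11] at h10
    exact (congrFun h10 c.2).symm
  simp only [h9] at h8
  exact h8

end

end Pool.Agent.Helper26.FU
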