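import Mathlib
import Pool.Agent.Helper26.FU.Pad
import Pool.Agent.Helper26.FU.Alg

/-!
# FU: families of maps over `ℂ`
-/

set_option autoImplicit false

namespace Pool.Agent.Helper26.FU

open MvPolynomial Pool.Agent.Helper86.DML Pool.Agent.Helper26.FD

noncomputable section

variable {p : ℕ} [hp : Fact p.Prime] {n s : ℕ}

/-- the combination of integral polynomials with coefficients `e j` -/
def comb {R : Type*} [CommRing R] (e : Fin s → R)
    (F : Fin s → Fin n → MvPolynomial (Fin n) ℤ) : Fin n → MvPolynomial (Fin n) R :=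
  fun i => ∑ j, C (e j) * map (Int.castRingHom R) (F j i)

/-- the congruence conditions: `F j₀ ≡ Fb`, and `F j ≡ 0` for the other `j` -/
def Cong (p : ℕ) (Fb : Fin n → MvPolynomial (Fin n) ℤ) (j₀ : Fin s)
    (F : Fin s → Fin n → MvPolynomial (Fin n) ℤ) : Prop :=
  ∀ j i t, (p : ℤ) ∣ coeff t (F j i) - coeff t (if j = j₀ then Fb i else 0)

theorem map_comb {R R' : Type*} [CommRing R] [CommRing R'] (τ : R →+* R') (e : Fin s → R)
    (F : Fin s → Fin n → MvPolynomial (Fin n) ℤ) (i : Fin n) :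
    map τ (comb e F i) = comb (fun j => τ (e j)) F i := by
  rw [comb, comb, map_sum]
  refine Finset.sum_congr rfl fun j _ => ?_
  have h : τ.comp (Int.castRingHom R) = Int.castRingHom R' := RingHom.ext_int _ _
  rw [map_mul, map_C, map_map, h]

theorem comb_hom {R : Type*} [CommRing R] {d : ℕ} (e : Fin s → R)
    {F : Fin s → Fin n → MvPolynomial (Fin n) ℤ} (hF : ∀ j i, (F j i).IsHomogeneous d)
    (i : Fin n) : (comb e F i).IsHomogeneous d := by
  rw [comb]
  refine IsHomogeneous.sum _ _ _ fun j _ => ?_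
  have h := (isHomogeneous_C (Fin n) (e j)).mul ((hF j i).map (Int.castRingHom R))
  rwa [zero_add] at h

omit hp in
/-- combinations with `e j₀ = 1` are perturbations -/
theorem comb_eq_pert {R : Type*} [CommRing R] {Fb : Fin n → MvPolynomial (Fin n) ℤ} {j₀ : Fin s}
    {F : Fin s → Fin n → MvPolynomial (Fin n) ℤ} (hF : Cong p Fb j₀ F) :
    ∃ Z : Fin s → Fin n → MvPolynomial (Fin n) ℤ, ∀ e : Fin s → R, e j₀ = 1 →
      comb e F = pert p Fb (comb e Z) := by
  classical
  have h1 : ∀ j i, ∃ Z : MvPolynomial (Fin n) ℤ, F j i = (if j = j₀ then Fb i else 0) +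
      C (p : ℤ) * Z := by
    intro j i
    have h2 : C (p : ℤ) ∣ F j i - (if j = j₀ then Fb i else 0) := by
      rw [C_dvd_iff_dvd_coeff]
      intro t
      rw [coeff_sub]
      exact hF j i t
    obtain ⟨Z, hZ⟩ := h2
    exact ⟨Z, by rw [← hZ]; ring⟩
  choose Z hZ using h1
  refine ⟨Z, fun e he => ?_⟩
  funext i
  rw [pert, comb, comb]
  have h2 : ∀ j, C (e j) * map (Int.castRingHom R) (F j i) =
      C (e j) * map (Int.castRingHom R) (if j = j₀ then Fb i else 0) +
        C (p : R) * (C (e j) * map (Int.castRingHom R) (Z j i)) := by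
    intro j
    rw [hZ j i, map_add, map_mul, map_C]
    simp only [eq_intCast, Int.cast_natCast]
    ring
  simp only [h2]
  rw [Finset.sum_add_distrib, ← Finset.mul_sum]
  congr 1
  rw [Finset.sum_eq_single j₀]
  · rw [if_pos rfl, he, C_1, one_mul]
  · intro j _ hj
    rw [if_neg hj, map_zero, mul_zero]
  · intro h
    exact absurd (Finset.mem_univ _) h

theorem coeff_comb {R : Type*} [CommRing R] (e : Fin s → R)
    (F : Fin s → Fin n → MvPolynomial (Fin n) ℤ) (i : Fin n) (t : Fin n →₀ ℕ) :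
    coeff t (comb e F i) = ∑ j, e j * ((coeff t (F j i) : ℤ) : R) := by
  rw [comb, coeff_sum]
  refine Finset.sum_congr rfl fun j _ => ?_
  rw [coeff_C_mul, coeff_map]
  rfl

/-- scaling of the map and of the point -/
theorem iterate_scale {k : Type*} [Field k] {d : ℕ} {P : Fin n → MvPolynomial (Fin n) k}
    (hP : ∀ i, (P i).IsHomogeneous d) {c t : k} (hc : c ≠ 0) (ht : t ≠ 0) (y : Fin n → k) (m : ℕ) :
    ∃ l : k, l ≠ 0 ∧ (pmap (fun i => C c * P i))^[m] (fun i => t * y i) =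
      fun i => l * (pmap P)^[m] y i := by
  induction m with
  | zero => exact ⟨t, ht, rfl⟩
  | succ m ih =>
    obtain ⟨l, hl, h⟩ := ih
    refine ⟨c * l ^ d, mul_ne_zero hc (pow_ne_zero _ hl), ?_⟩
    rw [Function.iterate_succ_apply', Function.iterate_succ_apply', h]
    funext i
    rw [pmap, pmap, map_mul, eval_C, eval_smul_hom' (hP i), mul_assoc]

/-- every monomial of `G` has the same degree in each group of variables -/
def MultiHom {k n : ℕ} {R : Type*} [CommRing R] (G : MvPolynomial (Fin k × Fin n) R) : Prop :=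
  ∃ g : Fin k → ℕ, ∀ t ∈ G.support, ∀ b, ∑ i, t (b, i) = g b

theorem MultiHom.map {k n : ℕ} {R R' : Type*} [CommRing R] [CommRing R']
    {G : MvPolynomial (Fin k × Fin n) R} {g : Fin k → ℕ}
    (hG : ∀ t ∈ G.support, ∀ b, ∑ i, t (b, i) = g b) (τ : R →+* R') :
    ∀ t ∈ (MvPolynomial.map τ G).support, ∀ b, ∑ i, t (b, i) = g b :=
  fun t ht => hG t (support_map_subset _ _ ht)

theorem eval_multi {k n : ℕ} {R : Type*} [CommRing R] {G : MvPolynomial (Fin k × Fin n) R}
    {g : Fin k → ℕ} (hG : ∀ t ∈ G.support, ∀ b, ∑ i, t (b, i) = g b) (l : Fin k → R)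
    (x : Fin k → Fin n → R) :
    eval (fun c => l c.1 * x c.1 c.2) G = (∏ b, l b ^ g b) * eval (fun c => x c.1 c.2) G := by
  rw [eval_eq', eval_eq', Finset.mul_sum]
  refine Finset.sum_congr rfl fun t ht => ?_
  have h1 : ∏ c : Fin k × Fin n, (l c.1 * x c.1 c.2) ^ t c =
      (∏ b, l b ^ g b) * ∏ c : Fin k × Fin n, x c.1 c.2 ^ t c := by
    simp only [mul_pow, Finset.prod_mul_distrib]
    congr 1
    rw [Fintype.prod_prod_type]
    refine Finset.prod_congr rfl fun b _ => ?_
    dsimp only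
    rw [Finset.prod_pow_eq_pow_sum, hG t ht b]
  rw [h1]
  ring

/-- the set of exponents of degree at most `δ` -/
def expSet (k n δ : ℕ) : Finset (Fin k × Fin n →₀ ℕ) :=
  (Finsupp.finite_of_degree_le (σ := Fin k × Fin n) δ).toFinset

theorem support_subset_expSet {k n : ℕ} {R : Type*} [CommRing R] {δ : ℕ}
    {G : MvPolynomial (Fin k × Fin n) R} (hG : G.totalDegree ≤ δ) : G.support ⊆ expSet k n δ := by
  intro t ht
  rw [expSet, Set.Finite.mem_toFinset, Set.mem_ofPred_eq]
  exact (le_totalDegree ht).trans hG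

/-- **The core.** -/
theorem core (hp3 : 3 ≤ p) (k n d D δ : ℕ) (hd : 1 ≤ d) : ∃ K : ℕ,
    ∀ (Fb : Fin n → MvPolynomial (Fin n) ℤ), GoodFin p (p ^ D) Fb →
    ∀ (s : ℕ) (e : Fin s → ℂ) (F : Fin k → Fin s → Fin n → MvPolynomial (Fin n) ℤ),
      (∀ b j i, (F b j i).IsHomogeneous d) → ∀ j₀ : Fin s, e j₀ ≠ 0 → (∀ b, Cong p Fb j₀ (F b)) →
    ∀ τ : ℂ →+* PadicAlgCl p, (∀ j, ‖τ (e j)‖ ≤ ‖τ (e j₀)‖) →
    ∀ (L : Subalgebra ℚ_[p] (PadicAlgCl p)) [FiniteDimensional ℚ_[p] L],
      Module.finrank ℚ_[p] L ≤ D → (∀ j, τ (e j / e j₀) ∈ L) →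
    ∀ α : Fin k → Fin n → ℂ, (∀ b, α b ≠ 0) → (∀ b i j, τ (α b i / α b j) ∈ L) →
    ∀ G : MvPolynomial (Fin k × Fin n) ℂ, MultiHom G → G.totalDegree ≤ δ → ∀ r : ℕ,
      {m | eval (fun c => (pmap (comb e (F c.1)))^[bd (k * n) p D + r +
        (bd (k * n) p D).factorial * (bd (k * n) p D).factorial * m] (α c.1) c.2) G = 0}.encard ≤ K ∨
        ∀ m, eval (fun c => (pmap (comb e (F c.1)))^[bd (k * n) p D + r +
          (bd (k * n) p D).factorial * (bd (k * n) p D).factorial * m] (α c.1) c.2) G = 0 := by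
  classical
  obtain ⟨K, hK⟩ := main_padic hp3 k n d D hd (expSet k n δ)
  refine ⟨K, ?_⟩
  intro Fb hgood s e F hF j₀ he0 hcong τ hτ L _ hL heL α hα hαL G hG hGδ r
  obtain ⟨g, hg⟩ := hG
  choose Z hZ using fun b => comb_eq_pert (R := PadicAlgCl p) (hcong b)
  let e' : Fin s → PadicAlgCl p := fun j => τ (e j / e j₀)
  have he'1 : e' j₀ = 1 := by
    simp only [e']
    rw [div_self he0, map_one]
  have hτe0 : τ (e j₀) ≠ 0 := fun h => he0 ((map_eq_zero τ).1 h)
  have he'n : ∀ j, ‖e' j‖ ≤ 1 := by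
    intro j
    simp only [e']
    rw [map_div₀, norm_div, div_le_one (norm_pos_iff.2 hτe0)]
    exact hτ j
  -- the largest coordinates
  have hmax : ∀ b, ∃ i₀, ∀ i, ‖τ (α b i)‖ ≤ ‖τ (α b i₀)‖ := by
    intro b
    have hne : (Finset.univ : Finset (Fin n)).Nonempty := by
      obtain ⟨i, -⟩ := Function.ne_iff.1 (hα b)
      exact ⟨i, Finset.mem_univ i⟩
    obtain ⟨i₀, -, h⟩ := Finset.exists_max_image Finset.univ (fun i => ‖τ (α b i)‖) hne
    exact ⟨i₀, fun i => h i (Finset.mem_univ i)⟩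
  choose i₀ hmax using hmax
  have hα0 : ∀ b, τ (α b (i₀ b)) ≠ 0 := by
    intro b h
    apply hα b
    funext i
    have h1 := hmax b i
    rw [h, norm_zero] at h1
    exact (map_eq_zero τ).1 (norm_le_zero_iff.1 h1)
  have hα0' : ∀ b, α b (i₀ b) ≠ 0 := fun b h => hα0 b (by rw [h, map_zero])
  let β : Fin k → Fin n → PadicAlgCl p := fun b i => τ (α b i / α b (i₀ b))
  have hβ : ∀ b i, ‖β b i‖ ≤ 1 := by
    intro b i
    simp only [β]
    rw [map_div₀, norm_div, div_le_one (norm_pos_iff.2 (hα0 b))]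
    exact hmax b i
  have hβ1 : ∀ b, β b (i₀ b) = 1 := by
    intro b
    simp only [β]
    rw [div_self (hα0' b), map_one]
  have h1 := hK (fun _ => Fb) (fun _ => hgood) L hL (fun b => comb e' (Z b)) (by
    intro b i t
    rw [coeff_comb]
    refine norm_sum_le_of _ _ zero_le_one fun j _ => ?_
    rw [norm_mul]
    exact mul_le_one₀ (he'n j) (norm_nonneg _) (norm_intCast_le _)) (by
    intro b i t
    rw [coeff_comb]
    exact sum_mem fun j _ => mul_mem (heL j) (intCast_mem L _)) (by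
    intro b i
    rw [← hZ b e' he'1]
    exact (comb_hom e' (hF b) i).totalDegree_le) β hβ (fun b i => hαL b i (i₀ b)) i₀ hβ1
    (MvPolynomial.map τ G)
    ((support_map_subset _ _).trans (support_subset_expSet hGδ)) r
  -- comparison
  have hcomb : ∀ b, comb e' (F b) =
      fun i => C (τ (e j₀))⁻¹ * MvPolynomial.map τ (comb e (F b) i) := by
    intro b
    funext i
    rw [map_comb, comb, comb, Finset.mul_sum]
    refine Finset.sum_congr rfl fun j _ => ?_
    rw [← mul_assoc, ← C_mul]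
    congr 2
    simp only [e']
    rw [map_div₀, div_eq_inv_mul]
  have hβt : ∀ b, β b = fun i => (τ (α b (i₀ b)))⁻¹ * τ (α b i) := by
    intro b
    funext i
    simp only [β]
    rw [map_div₀, div_eq_inv_mul]
  have hiff : ∀ m, eval (fun c : Fin k × Fin n =>
      (pmap (pert p Fb (comb e' (Z c.1))))^[m] (β c.1) c.2) (MvPolynomial.map τ G) = 0 ↔
      eval (fun c : Fin k × Fin n => (pmap (comb e (F c.1)))^[m] (α c.1) c.2) G = 0 := by
    intro m
    have h2 : ∀ b, ∃ l : PadicAlgCl p, l ≠ 0 ∧ (pmap (pert p Fb (comb e' (Z b))))^[m] (β b) =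
        fun i => l * τ ((pmap (comb e (F b)))^[m] (α b) i) := by
      intro b
      rw [← hZ b e' he'1, hcomb, hβt]
      obtain ⟨l, hl, h2⟩ := iterate_scale (P := fun i => MvPolynomial.map τ (comb e (F b) i))
        (d := d) (fun i => (comb_hom e (hF b) i).map τ) (inv_ne_zero hτe0) (inv_ne_zero (hα0 b))
        (fun i => τ (α b i)) m
      rw [h2, Pool.Agent.Helper87.LD.pmap_map_iterate]
      exact ⟨l, hl, rfl⟩
    choose l hl h2 using h2
    simp only [h2]
    have h3 := eval_multi (MultiHom.map hg τ) l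
      (fun b i => τ ((pmap (comb e (F b)))^[m] (α b) i))
    have h4 : eval (fun c : Fin k × Fin n => τ ((pmap (comb e (F c.1)))^[m] (α c.1) c.2))
        (MvPolynomial.map τ G) =
        τ (eval (fun c : Fin k × Fin n => (pmap (comb e (F c.1)))^[m] (α c.1) c.2) G) := by
      rw [eval_map, eval₂_comp]
      rfl
    rw [h3, h4]
    constructor
    · intro h5
      exact (map_eq_zero τ).1 ((mul_eq_zero.1 h5).resolve_left
        (Finset.prod_ne_zero_iff.2 fun b _ => pow_ne_zero _ (hl b)))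
    · intro h5
      rw [h5, map_zero, mul_zero]
  simp only [hiff] at h1
  exact h1

theorem isEndo (Fb : Fin n → MvPolynomial (Fin n) ℤ) (hgood : GoodAt p Fb)
    (e : Fin s → ℂ) (F : Fin s → Fin n → MvPolynomial (Fin n) ℤ) {d : ℕ}
    (hF : ∀ j i, (F j i).IsHomogeneous d) (j₀ : Fin s) (he0 : e j₀ ≠ 0) (hcong : Cong p Fb j₀ F)
    (τ : ℂ →+* PadicAlgCl p) (hτ : ∀ j, ‖τ (e j)‖ ≤ ‖τ (e j₀)‖) (z : Fin n → ℂ)
    (hz : ∀ i, eval z (comb e F i) = 0) : z = 0 := by
  classical
  by_contra hne0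
  obtain ⟨Z, hZ⟩ := comb_eq_pert (R := PadicAlgCl p) hcong
  let e' : Fin s → PadicAlgCl p := fun j => τ (e j / e j₀)
  have he'1 : e' j₀ = 1 := by
    simp only [e']
    rw [div_self he0, map_one]
  have hτe0 : τ (e j₀) ≠ 0 := fun h => he0 ((map_eq_zero τ).1 h)
  have he'n : ∀ j, ‖e' j‖ ≤ 1 := by
    intro j
    simp only [e']
    rw [map_div₀, norm_div, div_le_one (norm_pos_iff.2 hτe0)]
    exact hτ j
  have hσ0 : (fun i => τ (z i)) ≠ 0 := by
    intro h
    apply hne0
    funext i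
    exact (map_eq_zero τ).1 (congrFun h i)
  obtain ⟨i₀, t, ht, hnorm, hone⟩ := exists_primitive_vec hσ0
  let β : Fin n → PadicAlgCl p := fun i => t * τ (z i)
  have hcomb : comb e' F = fun i => C (τ (e j₀))⁻¹ * map τ (comb e F i) := by
    funext i
    rw [map_comb, comb, comb, Finset.mul_sum]
    refine Finset.sum_congr rfl fun j _ => ?_
    rw [← mul_assoc, ← C_mul]
    congr 2
    simp only [e']
    rw [map_div₀, div_eq_inv_mul]
  have h0 : pmap (pert p Fb (comb e' Z)) β = 0 := by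
    rw [← hZ e' he'1, hcomb]
    funext i
    rw [pmap, map_mul, eval_smul_hom' ((comb_hom e hF i).map τ),
      ← Pool.Agent.Helper87.LD.eval_hom, hz, map_zero, mul_zero, mul_zero]
    rfl
  let A : Set (PadicAlgCl p) := Set.range β ∪ Set.range e'
  have hA1 : ∀ a ∈ A, ‖a‖ ≤ 1 := by
    rintro a (⟨i, rfl⟩ | ⟨j, rfl⟩)
    · exact hnorm i
    · exact he'n j
  obtain ⟨hfin, hfree⟩ := adjoin_finite (p := p) ((Set.finite_range β).union (Set.finite_range e'))
    (fun a ha => isIntegral_of_norm_le_one _ (hA1 a ha))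
  let O : Subalgebra ℤ_[p] (PadicAlgCl p) := Algebra.adjoin ℤ_[p] A
  let x₀ : Fin n → O := fun i => ⟨β i, Algebra.subset_adjoin (Or.inl ⟨i, rfl⟩)⟩
  let e₀ : Fin s → O := fun j => ⟨e' j, Algebra.subset_adjoin (Or.inr ⟨j, rfl⟩)⟩
  obtain ⟨m, hm⟩ := Ideal.exists_maximal O
  let : Field (O ⧸ m) := Ideal.Quotient.field m
  let π := Ideal.Quotient.mk m
  have hπp : π (p : O) = 0 := Ideal.Quotient.eq_zero_iff_mem.2 (p_mem_maximal m)
  have hpk : ((p : ℕ) : O ⧸ m) = 0 := by
    have h1 := hπp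
    rw [map_natCast] at h1
    exact h1
  have hchar : CharP (O ⧸ m) p := ringChar.of_eq (CharP.ringChar_of_prime_eq_zero hp.out hpk)
  have hne' : (fun i => π (x₀ i)) ≠ 0 := by
    intro h
    have h2 := congrFun h i₀
    have h3 : x₀ i₀ = 1 := Subtype.ext hone
    rw [h3, map_one] at h2
    exact one_ne_zero h2
  have h4 : pmap (pert p Fb (comb e₀ Z)) x₀ = 0 := by
    have h5 := Pool.Agent.Helper87.LD.pmap_map_iterate (O.val : O →+* PadicAlgCl p)
      (pert p Fb (comb e₀ Z)) 1 x₀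
    have h6 : (fun i => map (O.val : O →+* PadicAlgCl p) (pert p Fb (comb e₀ Z) i)) =
        pert p Fb (comb e' Z) := by
      funext i
      rw [pert, pert, map_add, map_mul, map_C, map_comb, map_natCast, map_map]
      congr 2
    rw [h6] at h5
    have h7 : (pmap (pert p Fb (comb e' Z))) β = fun i => (O.val : O →+* PadicAlgCl p)
      (pmap (pert p Fb (comb e₀ Z)) x₀ i) := h5
    rw [h0] at h7
    funext i
    have h8 := congrFun h7 i
    exact Subtype.ext h8.symm
  apply (hgood (O ⧸ m) _ hne').1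
  have h9 := pmap_pert π hπp Fb (comb e₀ Z) x₀
  rw [← h9, h4]
  funext i
  exact map_zero _

end

end Pool.Agent.Helper26.FU
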