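import Mathlib
import Pool.Agent.Helper26.FU.Core
import Pool.Agent.Helper26.FD.Cnt

/-!
# FU: counting families
-/

set_option autoImplicit false

namespace Pool.Agent.Helper26.FU

open MvPolynomial Pool.Agent.Helper26.FD

noncomputable section

/-- the box of families -/
def fbox (N d m s : ℕ) (A : Fin s → Fin (N + 1) → MvPolynomial (Fin (N + 1)) ℝ) (ε : ℝ)
    (F₀ : Fin s → Fin (N + 1) → MvPolynomial (Fin (N + 1)) ℤ) (B : ℕ) :
    Set (Fin s → Fin (N + 1) → MvPolynomial (Fin (N + 1)) ℤ) :=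
  {F | ∀ j i, (F j i).IsHomogeneous d ∧ ∀ t, |((coeff t (F j i) : ℤ) : ℝ) - B * coeff t (A j i)| ≤
    ε * B ∧ (m : ℤ) ∣ coeff t (F j i) - coeff t (F₀ j i)}

theorem ncard_pi {X : Type*} {s : ℕ} (S : Fin s → Set X) (hS : ∀ j, (S j).Finite) :
    {F : Fin s → X | ∀ j, F j ∈ S j}.Finite ∧
      {F : Fin s → X | ∀ j, F j ∈ S j}.ncard = ∏ j, (S j).ncard := by
  classical
  have h1 : {F : Fin s → X | ∀ j, F j ∈ S j} =
      ((Fintype.piFinset fun j => (hS j).toFinset : Finset (Fin s → X)) : Set (Fin s → X)) := by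
    ext F
    simp
  rw [h1]
  refine ⟨Finset.finite_toSet _, ?_⟩
  rw [Set.ncard_coe_finset, Fintype.card_piFinset]
  exact Finset.prod_congr rfl fun j _ => (Set.ncard_eq_toFinset_card _ (hS j)).symm

theorem fbox_count (N d m s : ℕ) (hm : 1 ≤ m) (p : ℕ) (hp : p.Prime) (hpm : m.Coprime p)
    (Fb : Fin (N + 1) → MvPolynomial (Fin (N + 1)) ℤ) (hFb : ∀ i, (Fb i).IsHomogeneous d)
    (j₀ : Fin s) :
    ∃ c : ℝ, 0 < c ∧ ∀ (A : Fin s → Fin (N + 1) → MvPolynomial (Fin (N + 1)) ℝ) (ε : ℝ)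
      (F₀ : Fin s → Fin (N + 1) → MvPolynomial (Fin (N + 1)) ℤ),
      (∀ j i, (A j i).IsHomogeneous d) → 0 < ε →
      (∀ j i, (F₀ j i).IsHomogeneous d) → ∃ B₀ : ℕ, ∀ B : ℕ, B₀ ≤ B →
        (fbox N d m s A ε F₀ B).Finite ∧ c * ((fbox N d m s A ε F₀ B).ncard : ℝ) ≤
          (({F ∈ fbox N d m s A ε F₀ B | Cong p Fb j₀ F}).ncard : ℝ) := by
  classical
  let Fj : Fin s → Fin (N + 1) → MvPolynomial (Fin (N + 1)) ℤ := fun j i =>
    if j = j₀ then Fb i else 0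
  have hFj : ∀ j i, (Fj j i).IsHomogeneous d := by
    intro j i
    simp only [Fj]
    split_ifs
    · exact hFb i
    · exact isHomogeneous_zero _ _ _
  choose c hc h using fun j => cbox_count N d m hm p hp hpm (Fj j) (hFj j)
  refine ⟨∏ j, c j, Finset.prod_pos fun j _ => hc j, fun A ε F₀ hA hε hF₀ => ?_⟩
  choose B₀ hB₀ using fun j => h j (A j) ε (F₀ j) (hA j) hε (hF₀ j)
  refine ⟨∑ j, B₀ j, fun B hB => ?_⟩
  have hBj : ∀ j, B₀ j ≤ B := fun j =>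
    (Finset.single_le_sum (f := B₀) (fun _ _ => Nat.zero_le _) (Finset.mem_univ j)).trans hB
  have h1 : fbox N d m s A ε F₀ B = {F | ∀ j, F j ∈ cbox N d m (A j) ε (F₀ j) B} := by
    ext F
    exact Iff.rfl
  have h2 : {F ∈ fbox N d m s A ε F₀ B | Cong p Fb j₀ F} =
      {F | ∀ j, F j ∈ {G ∈ cbox N d m (A j) ε (F₀ j) B | ∀ i t, (p : ℤ) ∣
        coeff t (G i) - coeff t (Fj j i)}} := by
    ext F
    constructor
    · rintro ⟨h3, h4⟩ j
      exact ⟨h3 j, h4 j⟩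
    · intro h3
      exact ⟨fun j => (h3 j).1, fun j => (h3 j).2⟩
  obtain ⟨h3, h4⟩ := ncard_pi (fun j => cbox N d m (A j) ε (F₀ j) B)
    (fun j => (hB₀ j B (hBj j)).1)
  obtain ⟨-, h5⟩ := ncard_pi (fun j => {G ∈ cbox N d m (A j) ε (F₀ j) B | ∀ i t, (p : ℤ) ∣
        coeff t (G i) - coeff t (Fj j i)})
    (fun j => (hB₀ j B (hBj j)).1.subset fun F hF => hF.1)
  rw [h2, h5, h1, h4]
  refine ⟨h3, ?_⟩
  push_cast
  rw [← Finset.prod_mul_distrib]
  exact Finset.prod_le_prod (fun j _ => mul_nonneg (hc j).le (Nat.cast_nonneg _))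
    fun j _ => (hB₀ j B (hBj j)).2

end

end Pool.Agent.Helper26.FU
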