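import Mathlib
import Pool.Agent.Helper26.FU.Cnt
import Pool.Agent.Helper26.FD.Asm

/-!
# FU: assembly
-/

set_option autoImplicit false

namespace Pool.Agent.Helper26.FU

open MvPolynomial Pool.Agent.Helper86.DML Pool.Agent.Helper26.FD Cardinal

noncomputable section

theorem ap_of_dich_count (R : Set ℕ) {W Q K : ℕ} (hQ : 1 ≤ Q)
    (h : ∀ r, {k | W + r + Q * k ∈ R}.encard ≤ K ∨ ∀ k, W + r + Q * k ∈ R) :
    ∃ A : Finset (ℕ × ℕ), A.card ≤ W + Q * (K + 1) ∧ (∀ q ∈ A, q.2 = 0 ∨ q.2 = Q) ∧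
      R = {n | ∃ q ∈ A, ∃ k, n = q.1 + q.2 * k} := by
  classical
  -- for each residue class a finite set of progressions and points
  have h1 : ∀ r, ∃ A : Finset (ℕ × ℕ), A.card ≤ K + 1 ∧ (∀ q ∈ A, q.2 = 0 ∨ q.2 = Q) ∧
      {n | n ∈ R ∧ ∃ k, n = W + r + Q * k} = {n | ∃ q ∈ A, ∃ k, n = q.1 + q.2 * k} := by
    intro r
    rcases h r with h1 | h1
    · have hfin : {k | W + r + Q * k ∈ R}.Finite :=
        Set.finite_of_encard_le_coe h1
      refine ⟨hfin.toFinset.image fun k => (W + r + Q * k, 0), ?_, ?_, ?_⟩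
      · refine Finset.card_image_le.trans ?_
        have h2 := hfin.encard_eq_coe_toFinset_card
        rw [h2] at h1
        have h3 : hfin.toFinset.card ≤ K := by exact_mod_cast h1
        omega
      · intro q hq
        rw [Finset.mem_image] at hq
        obtain ⟨k, -, rfl⟩ := hq
        exact Or.inl rfl
      · ext n
        constructor
        · rintro ⟨hn, k, rfl⟩
          refine ⟨(W + r + Q * k, 0), ?_, 0, by simp⟩
          rw [Finset.mem_image]
          exact ⟨k, hfin.mem_toFinset.2 hn, rfl⟩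
        · rintro ⟨q, hq, k, rfl⟩
          rw [Finset.mem_image] at hq
          obtain ⟨k', hk', rfl⟩ := hq
          rw [hfin.mem_toFinset] at hk'
          simp only [zero_mul, add_zero]
          exact ⟨hk', k', rfl⟩
    · refine ⟨{(W + r, Q)}, by simp, ?_, ?_⟩
      · intro q hq
        rw [Finset.mem_singleton] at hq
        rw [hq]
        exact Or.inr rfl
      · ext n
        constructor
        · rintro ⟨hn, k, rfl⟩
          exact ⟨(W + r, Q), Finset.mem_singleton_self _, k, rfl⟩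
        · rintro ⟨q, hq, k, rfl⟩
          rw [Finset.mem_singleton] at hq
          subst hq
          exact ⟨h1 k, k, rfl⟩
  choose A hA1 hA2 hA3 using h1
  refine ⟨((Finset.range W).filter fun n => n ∈ R).image (fun n => (n, 0)) ∪
    (Finset.range Q).biUnion A, ?_, ?_, ?_⟩
  · refine (Finset.card_union_le _ _).trans ?_
    refine Nat.add_le_add ?_ ?_
    · refine Finset.card_image_le.trans ((Finset.card_filter_le _ _).trans ?_)
      rw [Finset.card_range]
    · refine (Finset.card_biUnion_le).trans ?_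
      refine (Finset.sum_le_sum fun r _ => hA1 r).trans ?_
      rw [Finset.sum_const, Finset.card_range, smul_eq_mul]
  · intro q hq
    rw [Finset.mem_union, Finset.mem_image, Finset.mem_biUnion] at hq
    rcases hq with ⟨n, -, rfl⟩ | ⟨r, -, hr⟩
    · exact Or.inl rfl
    · exact hA2 r q hr
  · ext n
    constructor
    · intro hn
      by_cases hlt : n < W
      · refine ⟨(n, 0), ?_, 0, by simp⟩
        rw [Finset.mem_union]
        left
        rw [Finset.mem_image]
        exact ⟨n, Finset.mem_filter.2 ⟨Finset.mem_range.2 hlt, hn⟩, rfl⟩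
      · have hr : (n - W) % Q < Q := Nat.mod_lt _ hQ
        have hn' : n = W + (n - W) % Q + Q * ((n - W) / Q) := by
          have := Nat.mod_add_div (n - W) Q
          omega
        have h2 : n ∈ {n | n ∈ R ∧ ∃ k, n = W + (n - W) % Q + Q * k} := ⟨hn, _, hn'⟩
        have h3 : n ∈ {n' | n' ∈ R ∧ ∃ k, n' = W + (n - W) % Q + Q * k} := ⟨hn, _, hn'⟩
        rw [hA3] at h3
        obtain ⟨q, hq, k, hk⟩ := h3
        refine ⟨q, ?_, k, hk⟩
        rw [Finset.mem_union, Finset.mem_biUnion]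
        right
        exact ⟨_, Finset.mem_range.2 hr, hq⟩
    · rintro ⟨q, hq, k, rfl⟩
      rw [Finset.mem_union, Finset.mem_image, Finset.mem_biUnion] at hq
      rcases hq with ⟨n, hn, rfl⟩ | ⟨r, hr, hq⟩
      · simp only [zero_mul, add_zero]
        exact (Finset.mem_filter.1 hn).2
      · have h2 : q.1 + q.2 * k ∈ {n | ∃ q ∈ A r, ∃ k, n = q.1 + q.2 * k} := ⟨q, hq, k, rfl⟩
        rw [← hA3] at h2
        exact h2.1

/-- `E` is generated over `L₀` by algebraically independent elements -/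
def PurelyTranscendental (L₀ E : Subfield ℂ) : Prop :=
  ∃ (r : ℕ) (t : Fin r → ℂ), AlgebraicIndependent L₀ t ∧
    E = Subfield.closure ((L₀ : Set ℂ) ∪ Set.range t)

/-- the dynamical Mordell-Lang conjecture for the products of the maps `P` of a class -/
def FullDML {X : Type} {n : ℕ} (P : X → Fin n → MvPolynomial (Fin n) ℂ) (𝒢 : Set X) : Prop :=
  ∀ (k : ℕ) (F : Fin k → X), (∀ b, F b ∈ 𝒢) → ∀ α : Fin k → Fin n → ℂ, (∀ b, α b ≠ 0) →
    ∀ V : Set (MvPolynomial (Fin k × Fin n) ℂ), (∀ G ∈ V, MultiHom G) → ∃ A : Finset (ℕ × ℕ),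
      {m : ℕ | ∀ G ∈ V, eval (fun c => (pmap (P (F c.1)))^[m] (α c.1) c.2) G = 0} =
        {m | ∃ q ∈ A, ∃ j, m = q.1 + q.2 * j}

/-- the uniform dynamical Mordell-Lang conjecture for the products of the maps of a class -/
def UnifDML {X : Type} {n : ℕ} (L₀ : Subfield ℂ) (C : ℕ → ℕ → ℕ → ℕ) (Q : ℕ → ℕ → ℕ)
    (P : X → Fin n → MvPolynomial (Fin n) ℂ) (𝒢 : Set X) : Prop :=
  ∀ (k D δ : ℕ) (F : Fin k → X), (∀ b, F b ∈ 𝒢) → ∀ E : Subfield ℂ, PurelyTranscendental L₀ E →
    ∀ M : IntermediateField E ℂ, FiniteDimensional E M → Module.finrank E M ≤ D →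
    ∀ α : Fin k → Fin n → ℂ, (∀ b, α b ≠ 0) → (∀ b i, α b i ∈ M) →
    ∀ V : Set (MvPolynomial (Fin k × Fin n) ℂ), (∀ G ∈ V, MultiHom G) →
    (∀ G ∈ V, G.totalDegree ≤ δ) →
    ∃ A : Finset (ℕ × ℕ), A.card ≤ C k D δ ∧ (∀ q ∈ A, q.2 = 0 ∨ q.2 = Q k D) ∧
      {m : ℕ | ∀ G ∈ V, eval (fun c => (pmap (P (F c.1)))^[m] (α c.1) c.2) G = 0} =
        {m | ∃ q ∈ A, ∃ j, m = q.1 + q.2 * j}

theorem fu_main (N d m s : ℕ) (hd : 2 ≤ d) (hm : 1 ≤ m) (e : Fin s → ℂ) (he : e ≠ 0) :
    ∃ (c : ℝ) (C : ℕ → ℕ → ℕ → ℕ) (Q : ℕ → ℕ → ℕ)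
      (𝒢 : Set (Fin s → Fin (N + 1) → MvPolynomial (Fin (N + 1)) ℤ)), 0 < c ∧
      (∀ (A : Fin s → Fin (N + 1) → MvPolynomial (Fin (N + 1)) ℝ) (ε : ℝ)
        (F₀ : Fin s → Fin (N + 1) → MvPolynomial (Fin (N + 1)) ℤ),
        (∀ j i, (A j i).IsHomogeneous d) → 0 < ε →
        (∀ j i, (F₀ j i).IsHomogeneous d) → ∃ B₀ : ℕ, ∀ B : ℕ, B₀ ≤ B →
          (fbox N d m s A ε F₀ B).Finite ∧ c * ((fbox N d m s A ε F₀ B).ncard : ℝ) ≤
            ((fbox N d m s A ε F₀ B ∩ 𝒢).ncard : ℝ)) ∧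
      (∀ F ∈ 𝒢, ∀ z, (∀ i, eval z (comb e F i) = 0) → z = 0) ∧
      FullDML (comb e) 𝒢 ∧ UnifDML (Subfield.closure (Set.range e)) C Q (comb e) 𝒢 := by
  classical
  obtain ⟨p, hp, hp3, hpm, Fb, hFb, hGood⟩ := exists_sym N d m hd
  have := Fact.mk hp
  have hcop : m.Coprime p := by
    rw [Nat.coprime_comm, hp.coprime_iff_not_dvd]
    intro hdvd
    have := Nat.le_of_dvd (by omega) hdvd
    omega
  obtain ⟨τ₀'⟩ := exists_iso p
  let τ₀ : ℂ →+* PadicAlgCl p := τ₀'
  -- the largest coefficient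
  have hne : (Finset.univ : Finset (Fin s)).Nonempty := by
    obtain ⟨j, -⟩ := Function.ne_iff.1 he
    exact ⟨j, Finset.mem_univ j⟩
  obtain ⟨j₀, -, hmax⟩ := Finset.exists_max_image Finset.univ (fun j => ‖τ₀ (e j)‖) hne
  have he0 : e j₀ ≠ 0 := by
    intro h
    apply he
    funext j
    have h1 := hmax j (Finset.mem_univ j)
    rw [h, map_zero, norm_zero] at h1
    exact (map_eq_zero τ₀).1 (norm_le_zero_iff.1 h1)
  obtain ⟨c, hc, hcount⟩ := fbox_count N d m s hm p hp hcop Fb hFb j₀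
  choose Kf hKf using fun k D δ => core (p := p) hp3 k (N + 1) d D δ (by omega)
  -- the field of the `e j`
  let K₀ : IntermediateField ℚ_[p] (PadicAlgCl p) :=
    IntermediateField.adjoin ℚ_[p] (Set.range fun j => τ₀ (e j))
  have hK₀fin : FiniteDimensional ℚ_[p] K₀ :=
    IntermediateField.finiteDimensional_adjoin fun x _ =>
      (Algebra.IsAlgebraic.isAlgebraic x).isIntegral
  let W : ℕ → ℕ → ℕ := fun k D => bd (k * (N + 1)) p (Module.finrank ℚ_[p] K₀ * D)
  let Q : ℕ → ℕ → ℕ := fun k D => (W k D).factorial * (W k D).factorial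
  refine ⟨c, fun k D δ => W k D + Q k D * (Kf k (Module.finrank ℚ_[p] K₀ * D) δ + 1), Q,
    {F | (∀ j i, (F j i).IsHomogeneous d) ∧ Cong p Fb j₀ F}, hc, ?_, ?_, ?_, ?_⟩
  · intro A ε F₀ hA hε hF₀
    obtain ⟨B₀, hB₀⟩ := hcount A ε F₀ hA hε hF₀
    refine ⟨B₀, fun B hB => ?_⟩
    obtain ⟨hfin, h1⟩ := hB₀ B hB
    refine ⟨hfin, h1.trans (Nat.cast_le.2 (Set.ncard_le_ncard ?_
      (hfin.subset Set.inter_subset_left)))⟩
    rintro F ⟨hF, hcong⟩
    exact ⟨hF, fun j i => (hF j i).1, hcong⟩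
  · rintro F ⟨hFhom, hcong⟩
    exact isEndo Fb hGood e F hFhom j₀ he0 hcong τ₀ (fun j => hmax j (Finset.mem_univ j))
  · -- all points
    intro k F hF α hα V hV
    let L : IntermediateField ℚ_[p] (PadicAlgCl p) :=
      IntermediateField.adjoin ℚ_[p] ((Set.range fun c : Fin k × Fin (N + 1) => τ₀ (α c.1 c.2)) ∪
        Set.range fun j => τ₀ (e j))
    have hLfin : FiniteDimensional ℚ_[p] L := by
      have : Finite (((Set.range fun c : Fin k × Fin (N + 1) => τ₀ (α c.1 c.2)) ∪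
          Set.range fun j => τ₀ (e j) : Set _)) :=
        ((Set.finite_range _).union (Set.finite_range _)).to_subtype
      exact IntermediateField.finiteDimensional_adjoin fun x _ =>
        (Algebra.IsAlgebraic.isAlgebraic x).isIntegral
    have hLfin' : FiniteDimensional ℚ_[p] L.toSubalgebra := hLfin
    have hαL : ∀ b i, τ₀ (α b i) ∈ L := fun b i =>
      IntermediateField.subset_adjoin _ _ (Or.inl ⟨(b, i), rfl⟩)
    have heL : ∀ j, τ₀ (e j) ∈ L := fun j =>
      IntermediateField.subset_adjoin _ _ (Or.inr ⟨j, rfl⟩)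
    set D := Module.finrank ℚ_[p] L.toSubalgebra with hD
    set W' := bd (k * (N + 1)) p D with hW'
    have hdich : ∀ G : MvPolynomial (Fin k × Fin (N + 1)) ℂ, MultiHom G → ∀ r,
        {m | eval (fun c => (pmap (comb e (F c.1)))^[W' + r + W'.factorial *
          W'.factorial * m] (α c.1) c.2) G = 0}.Finite ∨
        ∀ m, eval (fun c => (pmap (comb e (F c.1)))^[W' + r + W'.factorial *
          W'.factorial * m] (α c.1) c.2) G = 0 := by
      intro G hG r
      rcases hKf k D G.totalDegree Fb (GoodAt.goodFin hGood _) s e F (fun b => (hF b).1) j₀ he0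
        (fun b => (hF b).2) τ₀
        (fun j => hmax j (Finset.mem_univ j)) L.toSubalgebra le_rfl (fun j => by
          rw [map_div₀]; exact (show _ ∈ L from div_mem (heL j) (heL j₀))) α hα
        (fun b i j => by rw [map_div₀]; exact (show _ ∈ L from div_mem (hαL b i) (hαL b j)))
        G hG le_rfl r with h2 | h2
      · exact Or.inl (Set.finite_of_encard_le_coe h2)
      · exact Or.inr h2
    refine ap_of_dich _ (Nat.mul_pos (Nat.factorial_pos W') (Nat.factorial_pos W'))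
      (n₀ := W') fun r => ?_
    by_cases hall : ∀ G ∈ V, ∀ m, eval (fun c => (pmap (comb e (F c.1)))^[W' + r +
        W'.factorial * W'.factorial * m] (α c.1) c.2) G = 0
    · right
      intro m G hGV
      exact hall G hGV m
    · left
      push Not at hall
      obtain ⟨G, hGV, m, hm⟩ := hall
      rcases hdich G (hV G hGV) r with h2 | h2
      · exact h2.subset fun m' hm' => hm' G hGV
      · exact absurd (h2 m) hm
  · -- uniformity
    intro k D δ F hF E hE M hMfin hMD α hα hαM V hV hVδ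
    obtain ⟨r₀, t, ht, hEt⟩ := hE
    set L₀ := Subfield.closure (Set.range e) with hL₀
    have hL₀c : (L₀ : Set ℂ).Countable := by
      have h2 := Pool.Agent.Helper26.LT.countable_closure (Finset.univ.image e)
      rw [Finset.coe_image, Finset.coe_univ, Set.image_univ] at h2
      exact h2
    have hL₀K : ∀ z ∈ L₀, τ₀ z ∈ K₀.toSubfield := by
      intro z hz
      have h2 : L₀ ≤ K₀.toSubfield.comap τ₀ := by
        rw [hL₀, Subfield.closure_le]
        rintro _ ⟨j, rfl⟩
        exact IntermediateField.subset_adjoin _ _ ⟨j, rfl⟩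
      exact h2 hz
    obtain ⟨τ, hτ, hτt⟩ := exists_embedding L₀ hL₀c τ₀ K₀.toSubfield
      (aleph0_lt_intermediate K₀) hL₀K ht
    have hEK : ∀ z ∈ E, τ z ∈ K₀ := by
      intro z hz
      have h2 : E ≤ K₀.toSubfield.comap τ := by
        rw [hEt, Subfield.closure_le]
        rintro w (hw | ⟨i, rfl⟩)
        · have h3 := hL₀K w hw
          rw [← hτ w hw] at h3
          exact h3
        · exact hτt i
      exact h2 hz
    obtain ⟨L, hLfin, hLD, hML, hKL⟩ := exists_alg K₀ τ E hEK M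
    have heL₀ : ∀ j, e j ∈ L₀ := fun j => Subfield.subset_closure ⟨j, rfl⟩
    have hD' : Module.finrank ℚ_[p] L ≤ Module.finrank ℚ_[p] K₀ * D :=
      hLD.trans (Nat.mul_le_mul_left _ hMD)
    refine ap_of_dich_count _ (Nat.mul_pos (Nat.factorial_pos _) (Nat.factorial_pos _)) fun r => ?_
    by_cases hall : ∀ G ∈ V, ∀ m, eval (fun c =>
        (pmap (comb e (F c.1)))^[W k D + r + Q k D * m] (α c.1) c.2) G = 0
    · right
      intro m G hGV
      exact hall G hGV m
    · left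
      push Not at hall
      obtain ⟨G, hGV, m, hm⟩ := hall
      rcases hKf k (Module.finrank ℚ_[p] K₀ * D) δ Fb (GoodAt.goodFin hGood _) s e F
        (fun b => (hF b).1) j₀ he0 (fun b => (hF b).2) τ (fun j => by
          rw [hτ _ (heL₀ j), hτ _ (heL₀ j₀)]
          exact hmax j (Finset.mem_univ j)) L hD' (fun j => by
          rw [hτ _ (div_mem (heL₀ j) (heL₀ j₀))]
          exact hKL _ (hL₀K _ (div_mem (heL₀ j) (heL₀ j₀)))) α hα
        (fun b i j => hML _ (div_mem (hαM b i) (hαM b j))) G (hV G hGV) (hVδ G hGV) r with h2 | h2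
      · refine le_trans (Set.encard_le_encard ?_) h2
        intro m' hm'
        exact hm' G hGV
      · exact absurd (h2 m) hm

end

end Pool.Agent.Helper26.FU
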